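import Mathlib
import Pool.Agent.TH204.CP.Core2

/-! Few shifted primes in a set that is thin in the short intervals. -/

set_option autoImplicit false

namespace Pool.Agent.TH204.CP
open Finset Filter Pool.Agent.W301.SS

/-- `B` is small and thick around each of its points, so few primes are in `B + b`, for all `b` -/
theorem badshift (ε : ℝ) (hε : 0 < ε) : ∃ η : ℝ, 0 < η ∧ ∀ᶠ N : ℕ in atTop, ∀ L : ℕ,
    Real.log N ^ 21 ≤ L → (L : ℝ) * Real.log N ≤ η * N → ∀ E : Finset ℤ, (E.card : ℝ) ≤ η * N →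
    ∀ B : Finset ℤ, B ⊆ Icc (1 : ℤ) N →
      (∀ y ∈ B, 2 * (L : ℤ) < y → ∀ n ∈ Icc (y - 2 * L) (y - L), n ∈ E) → ∀ b : ℤ, |b| ≤ N →
      (∑ y ∈ B, pv (y + b)) * Real.log N ≤ ε * N := by
  classical
  obtain ⟨η, hη0, hη⟩ := badprimes (ε / 2) (by positivity)
  refine ⟨min η (ε / 10), lt_min hη0 (by positivity), ?_⟩
  filter_upwards [hη, ev_L 1, eventually_ge_atTop 16] with N h1 hℓ1 hN16 L hL1 hL2 E hE B hB1 hB2 b hb
  have hNr : (16 : ℝ) ≤ N := by exact_mod_cast hN16
  have hN0 : (0 : ℝ) < N := by linarith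
  set ℓ := Real.log N with hℓ
  have hLr : (1 : ℝ) ≤ L := (one_le_pow₀ hℓ1).trans hL1
  have hLn : 1 ≤ L := by exact_mod_cast hLr
  have hb' := abs_le.1 hb
  -- the good part
  set I : Finset ℤ := Icc (1 : ℤ) N with hI
  set B1 : Finset ℤ := B.filter (fun y => 2 * (L : ℤ) < y ∧ (L : ℤ) + 1 < y + b) with hB1'
  set E1 : Finset ℤ := E.filter (fun n => 1 ≤ n ∧ n + L ≤ N ∧ 1 ≤ n + L - 1 + b) with hE1'
  have hB1I : ∀ y ∈ B, 1 ≤ y ∧ y ≤ N := fun y hy => mem_Icc.1 (hB1 hy)
  have hbad : (∑ y ∈ B1, pv (y + b)) * ℓ ≤ ε / 2 * N := by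
    refine h1 L hL1 E1 ?_ (fun y => pv (y + b)) (fun y => (pv_mem _).1)
      (fun n => (n + L - 1 + b).toNat) ?_ ?_ ?_ B1 ?_
    · have h2 : (E1.card : ℝ) ≤ E.card := by exact_mod_cast card_filter_le _ _
      exact h2.trans (hE.trans (mul_le_mul_of_nonneg_right (min_le_left _ _) hN0.le))
    · intro x hx y hy hxy
      rw [mem_coe, hE1', mem_filter] at hx hy
      simp only at hxy
      omega
    · intro n hn
      rw [hE1', mem_filter] at hn
      rw [mem_Icc]; omega
    · intro n hn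
      rw [hE1', mem_filter] at hn
      have e1 := window (n + L - 1 + b).toNat L (n + L + b) (by omega)
      rw [← e1]
      apply le_of_eq
      apply sum_bij (fun (y : ℤ) _ => y + b)
      · intro y hy
        rw [mem_Icc] at hy ⊢; omega
      · intro x _ y _ hxy; omega
      · intro y hy
        rw [mem_Icc] at hy
        exact ⟨y - b, by rw [mem_Icc]; omega, by ring⟩
      · intro y _; rfl
    · intro y hy n hn
      rw [hB1', mem_filter] at hy
      have h2 := hB2 y hy.1 hy.2.1 n hn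
      have h3 := hB1I y hy.1
      rw [mem_Icc] at hn
      rw [hE1', mem_filter]
      refine ⟨h2, by omega, by omega, by omega⟩
  -- the rest
  have hrest : ∑ y ∈ B.filter (fun y => ¬ (2 * (L : ℤ) < y ∧ (L : ℤ) + 1 < y + b)), pv (y + b) ≤ 4 * L := by
    have h2 : ∑ y ∈ B.filter (fun y => ¬ (2 * (L : ℤ) < y ∧ (L : ℤ) + 1 < y + b)), pv (y + b) ≤
        ∑ y ∈ Icc (1 : ℤ) (2 * L) ∪ Icc (2 - b) (L + 1 - b), (1 : ℝ) := by
      have h3 : ∀ y ∈ B.filter (fun y => ¬ (2 * (L : ℤ) < y ∧ (L : ℤ) + 1 < y + b)),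
          y ∉ Icc (1 : ℤ) (2 * L) ∪ Icc (2 - b) (L + 1 - b) → pv (y + b) = 0 := by
        intro y hy hyn
        rw [mem_filter] at hy
        rw [mem_union, mem_Icc, mem_Icc] at hyn
        have h4 := hB1I y hy.1
        unfold pv
        rw [if_neg]
        intro hp
        have h5 := hp.two_le
        have h6 : ¬ (2 * (L : ℤ) < y ∧ (L : ℤ) + 1 < y + b) := hy.2
        omega
      calc ∑ y ∈ B.filter (fun y => ¬ (2 * (L : ℤ) < y ∧ (L : ℤ) + 1 < y + b)), pv (y + b) ≤
            ∑ y ∈ B.filter (fun y => ¬ (2 * (L : ℤ) < y ∧ (L : ℤ) + 1 < y + b)),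
              (if y ∈ Icc (1 : ℤ) (2 * L) ∪ Icc (2 - b) (L + 1 - b) then (1 : ℝ) else 0) := by
            apply sum_le_sum
            intro y hy
            split_ifs with h
            · exact (pv_mem _).2
            · exact (h3 y hy h).le
        _ ≤ _ := by
            rw [← sum_filter]
            apply sum_le_sum_of_subset_of_nonneg
            · intro y hy
              exact (mem_filter.1 hy).2
            · intro _ _ _; norm_num
    refine h2.trans ?_
    rw [sum_const, nsmul_eq_mul, mul_one]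
    have h3 := card_union_le (Icc (1 : ℤ) (2 * L)) (Icc (2 - b) (L + 1 - b))
    rw [Int.card_Icc, Int.card_Icc] at h3
    exact_mod_cast (by omega : (Icc (1 : ℤ) (2 * L) ∪ Icc (2 - b) (L + 1 - b)).card ≤ 4 * L)
  rw [← sum_filter_add_sum_filter_not B (fun y => 2 * (L : ℤ) < y ∧ (L : ℤ) + 1 < y + b)]
  have h4 : (4 * (L : ℝ)) * ℓ ≤ 4 * (ε / 10 * N) := by
    have h5 : (L : ℝ) * ℓ ≤ ε / 10 * N := hL2.trans (mul_le_mul_of_nonneg_right (min_le_right _ _) hN0.le)
    linarith
  have h5 : (∑ y ∈ B.filter (fun y => ¬ (2 * (L : ℤ) < y ∧ (L : ℤ) + 1 < y + b)), pv (y + b)) * ℓ ≤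
      (4 * (L : ℝ)) * ℓ := mul_le_mul_of_nonneg_right hrest (by linarith)
  rw [add_mul]
  nlinarith

/-- the number of the shifted primes in a locally constant set, upper bound -/
theorem upper (ε : ℝ) (hε : 0 < ε) : ∃ η : ℝ, 0 < η ∧ ∀ᶠ N : ℕ in atTop, ∀ L : ℕ,
    Real.log N ^ 21 ≤ L → (L : ℝ) * Real.log N ≤ η * N → ∀ (P : ℤ → Prop) (E : Finset ℤ),
    (E.card : ℝ) ≤ η * N → LocE P E N L → ∀ b : ℤ, |b| ≤ N →
      QD P b N * Real.log N ≤ 4 * cnt P N + ε * N := by
  classical
  obtain ⟨η, hη0, hη⟩ := badshift (ε / 4) (by positivity)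
  set δ : ℝ := min (ε / 80) (1 / 16) with hδ
  have hδ0 : 0 < δ := lt_min (by positivity) (by norm_num)
  have hδ1 : δ ≤ 1 / 16 := min_le_right _ _
  have hδ2 : δ ≤ ε / 80 := min_le_left _ _
  refine ⟨min η (ε / 24), lt_min hη0 (by positivity), ?_⟩
  have ht : Tendsto (fun N : ℕ => 2 * N) atTop atTop :=
    tendsto_id.const_mul_atTop' (by norm_num)
  filter_upwards [hη, ht.eventually (subU δ hδ0 hδ1), ev_L (2 ^ 20), eventually_ge_atTop 16] with
    N h1 hsub hℓ1' hN16 L hL1 hL2 P E hE hloc b hb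
  have hNr : (16 : ℝ) ≤ N := by exact_mod_cast hN16
  have hN0 : (0 : ℝ) < N := by linarith
  set ℓ := Real.log N with hℓ
  have hℓ1 : 1 ≤ ℓ := le_trans (by norm_num) hℓ1'
  have hLr : (1 : ℝ) ≤ L := (one_le_pow₀ hℓ1).trans hL1
  have hLn : 1 ≤ L := by exact_mod_cast hLr
  have hL0 : (0 : ℝ) < L := by linarith
  have hb' := abs_le.1 hb
  have hη1 : (E.card : ℝ) ≤ η * N := hE.trans (mul_le_mul_of_nonneg_right (min_le_left _ _) hN0.le)
  have hη2 : (L : ℝ) * ℓ ≤ η * N := hL2.trans (mul_le_mul_of_nonneg_right (min_le_left _ _) hN0.le)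
  have hη3 : (L : ℝ) * ℓ ≤ ε / 24 * N := hL2.trans (mul_le_mul_of_nonneg_right (min_le_right _ _) hN0.le)
  have hbad := h1 L hL1 hη2 E hη1 (BB P N L) (by
    intro y hy
    unfold BB at hy
    rw [mem_filter, mem_Icc] at hy
    rw [mem_Icc]; omega) (fun y hy _ n hn => (mem_filter.1 (BB_prop hloc y hy n hn)).1) b hb
  -- the good points
  set Gd : Finset ℤ := (Icc (2 * (L : ℤ) + 1) (N - 2 * L)).filter
    (fun x => x ∉ BB P N L ∧ (L : ℤ) + 1 < x + b) with hGd
  set U : Finset ℤ := Icc (1 : ℤ) (2 * L) ∪ (Icc (N - 2 * (L : ℤ) + 1) N ∪ Icc (2 - b) (L + 1 - b)) with hU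
  have hsplit : QD P b N ≤ ∑ x ∈ Gd, ind P x * pv (x + b) + (∑ y ∈ BB P N L, pv (y + b) + 6 * L) := by
    have hpt : ∀ x ∈ Icc (1 : ℤ) N, ind P x * pv (x + b) ≤
        (if x ∈ Gd then ind P x * pv (x + b) else 0) +
        ((if x ∈ BB P N L then pv (x + b) else 0) + (if x ∈ U then 1 else 0)) := by
      intro x hx
      rw [mem_Icc] at hx
      have i1 := ind_mem P x
      have i2 := pv_mem (x + b)
      have i3 : ind P x * pv (x + b) ≤ pv (x + b) := mul_le_of_le_one_left i2.1 i1.2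
      have i4 : 0 ≤ ind P x * pv (x + b) := mul_nonneg i1.1 i2.1
      by_cases hxU : x ∈ U
      · rw [if_pos hxU]
        split_ifs <;> linarith
      · rw [if_neg hxU]
        by_cases hxB : x ∈ BB P N L
        · rw [if_pos hxB]
          split_ifs <;> linarith
        · rw [if_neg hxB]
          by_cases hxG : x ∈ Gd
          · rw [if_pos hxG]; linarith
          · rw [if_neg hxG]
            rw [hU, mem_union, mem_union, mem_Icc, mem_Icc, mem_Icc] at hxU
            rw [hGd, mem_filter, mem_Icc] at hxG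
            have : pv (x + b) = 0 := by
              unfold pv
              rw [if_neg]
              intro hp
              have h5 := hp.two_le
              apply hxG
              exact ⟨by omega, hxB, by omega⟩
            rw [this]; simp
    unfold QD
    refine (sum_le_sum hpt).trans ?_
    rw [sum_add_distrib, sum_add_distrib]
    gcongr
    · rw [← sum_filter]
      apply sum_le_sum_of_subset_of_nonneg
      · intro x hx; exact (mem_filter.1 hx).2
      · intro x _ _; exact mul_nonneg (ind_mem P x).1 (pv_mem _).1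
    · rw [← sum_filter]
      apply sum_le_sum_of_subset_of_nonneg
      · intro x hx; exact (mem_filter.1 hx).2
      · intro x _ _; exact (pv_mem _).1
    · rw [← sum_filter, sum_const, nsmul_eq_mul, mul_one]
      have h3 : ((Icc (1 : ℤ) N).filter (fun x => x ∈ U)).card ≤ U.card :=
        card_le_card (fun x hx => (mem_filter.1 hx).2)
      rw [hU] at h3
      have h4 := card_union_le (Icc (1 : ℤ) (2 * L)) (Icc (N - 2 * (L : ℤ) + 1) N ∪ Icc (2 - b) (L + 1 - b))
      have h5 := card_union_le (Icc (N - 2 * (L : ℤ) + 1) (N : ℤ)) (Icc (2 - b) (L + 1 - b))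
      rw [Int.card_Icc] at h4
      rw [Int.card_Icc, Int.card_Icc] at h5
      have h6 : ((Icc (1 : ℤ) N).filter (fun x => x ∈ U)).card ≤ 6 * L := by
        rw [hU]; omega
      exact_mod_cast h6
  -- double counting
  set A : Finset ℤ := (Icc (1 : ℤ) N).filter (fun a => P a ∧ 1 ≤ a + b) with hA
  have hdouble : (L : ℝ) * ∑ x ∈ Gd, ind P x * pv (x + b) ≤ ∑ a ∈ A, (pn (a + b).toNat L : ℝ) := by
    have e1 : ∀ a ∈ A, (pn (a + b).toNat L : ℝ) = ∑ x ∈ Icc (a + 1) (a + L), pv (x + b) := by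
      intro a ha
      rw [hA, mem_filter] at ha
      have e2 := window (a + b).toNat (L - 1) (a + b + 1) (by omega)
      rw [show L - 1 + 1 = L by omega] at e2
      rw [← e2]
      symm
      apply sum_bij (fun (y : ℤ) _ => y + b)
      · intro y hy
        rw [mem_Icc] at hy ⊢; omega
      · intro x _ y _ hxy; omega
      · intro y hy
        rw [mem_Icc] at hy
        exact ⟨y - b, by rw [mem_Icc]; omega, by ring⟩
      · intro y _; rfl
    rw [sum_congr rfl e1]
    have e3 : ∀ a ∈ A, ∑ x ∈ Gd, (if x ∈ Icc (a + 1) (a + L) then ind P x * pv (x + b) else 0) ≤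
        ∑ x ∈ Icc (a + 1) (a + L), pv (x + b) := by
      intro a _
      rw [← sum_filter]
      calc ∑ x ∈ Gd.filter (fun x => x ∈ Icc (a + 1) (a + (L : ℤ))), ind P x * pv (x + b) ≤
          ∑ x ∈ Gd.filter (fun x => x ∈ Icc (a + 1) (a + (L : ℤ))), pv (x + b) :=
            sum_le_sum fun x _ => mul_le_of_le_one_left (pv_mem _).1 (ind_mem P x).2
        _ ≤ _ := by
            apply sum_le_sum_of_subset_of_nonneg
            · intro x hx; exact (mem_filter.1 hx).2
            · intro x _ _; exact (pv_mem _).1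
    refine le_trans ?_ (sum_le_sum e3)
    rw [sum_comm, mul_sum]
    apply sum_le_sum
    intro x hx
    rw [hGd, mem_filter, mem_Icc] at hx
    obtain ⟨hxI, hxB, hxb⟩ := hx
    by_cases hPx : P x
    · have hall : ∀ a ∈ Icc (x - L) (x - 1), a ∈ A := by
        intro a ha
        rw [mem_Icc] at ha
        rw [hA, mem_filter, mem_Icc]
        refine ⟨by omega, ?_, by omega⟩
        by_contra hPa
        apply hxB
        unfold BB
        rw [mem_filter, mem_Icc]
        refine ⟨hxI, a - x, by rw [abs_le]; constructor <;> omega, ?_⟩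
        rw [show x + (a - x) = a by ring]
        intro hiff
        exact hPa (hiff.2 hPx)
      rw [← sum_filter, sum_const, nsmul_eq_mul]
      apply mul_le_mul_of_nonneg_right _ (mul_nonneg (ind_mem P x).1 (pv_mem _).1)
      have hsub2 : Icc (x - (L : ℤ)) (x - 1) ⊆ A.filter (fun a => x ∈ Icc (a + 1) (a + (L : ℤ))) := by
        intro a ha
        have := hall a ha
        rw [mem_Icc] at ha
        rw [mem_filter, mem_Icc]
        exact ⟨this, by omega, by omega⟩
      have hc := card_le_card hsub2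
      rw [Int.card_Icc] at hc
      exact_mod_cast (by omega : L ≤ (A.filter (fun a => x ∈ Icc (a + 1) (a + (L : ℤ)))).card)
    · have hi0 : ind P x = 0 := by unfold ind; rw [if_neg hPx]
      rw [hi0]; simp
  -- the sieve
  have hinj : Set.InjOn (fun a : ℤ => (a + b).toNat) (A : Set ℤ) := by
    intro x hx y hy hxy
    rw [mem_coe, hA, mem_filter] at hx hy
    simp only at hxy
    omega
  have hsieve := hsub (A.image (fun a : ℤ => (a + b).toNat)) (by
    intro a ha
    obtain ⟨x, hx, rfl⟩ := mem_image.1 ha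
    rw [hA, mem_filter, mem_Icc] at hx
    rw [mem_Icc]; omega) L (by
      have h2 : Real.log ((2 * N : ℕ) : ℝ) ≤ 2 * ℓ := by
        push_cast
        rw [Real.log_mul (by norm_num) (by linarith)]
        have := Real.log_two_lt_d9
        linarith
      calc Real.log ((2 * N : ℕ) : ℝ) ^ 20 ≤ (2 * ℓ) ^ 20 := by
            apply pow_le_pow_left₀ _ h2
            apply Real.log_nonneg
            push_cast; linarith
        _ = 2 ^ 20 * ℓ ^ 20 := by ring
        _ ≤ ℓ * ℓ ^ 20 := by gcongr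
        _ = ℓ ^ 21 := by ring
        _ ≤ L := hL1)
  rw [sum_image hinj, card_image_of_injOn hinj] at hsieve
  have hAc : (A.card : ℝ) ≤ cnt P N := by
    have h2 : (A.card : ℝ) = ∑ x ∈ Icc (1 : ℤ) N, (if P x ∧ 1 ≤ x + b then (1 : ℝ) else 0) := by
      rw [hA, card_filter]; push_cast; rfl
    rw [h2]
    unfold cnt
    apply sum_le_sum
    intro x _
    unfold ind
    by_cases hPx : P x
    · rw [if_pos hPx]; split_ifs <;> norm_num
    · rw [if_neg hPx, if_neg (fun h => hPx h.1)]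
  have hcN := cnt_le P N
  have hc0 := cnt_nonneg P N
  set S := ∑ a ∈ A, (pn (a + b).toNat L : ℝ) with hS
  have hS0 : 0 ≤ S := sum_nonneg fun _ _ => Nat.cast_nonneg _
  have hSl : S * ℓ ≤ (4 * cnt P N + ε / 4 * N) * L := by
    have h2 : ℓ ≤ Real.log ((2 * N : ℕ) : ℝ) := by
      apply Real.log_le_log hN0
      push_cast; linarith
    calc S * ℓ ≤ S * Real.log ((2 * N : ℕ) : ℝ) := mul_le_mul_of_nonneg_left h2 hS0
      _ ≤ ((4 + 16 * δ) * A.card + 2 * δ * (2 * N : ℕ)) * L := hsieve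
      _ ≤ _ := by
          apply mul_le_mul_of_nonneg_right _ hL0.le
          push_cast
          have h3 : (4 + 16 * δ) * (A.card : ℝ) ≤ (4 + 16 * δ) * cnt P N :=
            mul_le_mul_of_nonneg_left hAc (by positivity)
          have h4 : 16 * δ * cnt P N ≤ 16 * (ε / 80) * N := by gcongr
          have h5 : 2 * δ * (2 * (N : ℝ)) ≤ 2 * (ε / 80) * (2 * N) := by gcongr
          nlinarith
  have hmain : (∑ x ∈ Gd, ind P x * pv (x + b)) * ℓ ≤ 4 * cnt P N + ε / 4 * N := by
    have h2 : (L : ℝ) * ((∑ x ∈ Gd, ind P x * pv (x + b)) * ℓ) ≤ L * (4 * cnt P N + ε / 4 * N) := by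
      calc (L : ℝ) * ((∑ x ∈ Gd, ind P x * pv (x + b)) * ℓ) =
            ((L : ℝ) * ∑ x ∈ Gd, ind P x * pv (x + b)) * ℓ := by ring
        _ ≤ S * ℓ := mul_le_mul_of_nonneg_right hdouble (by linarith)
        _ ≤ _ := hSl
        _ = _ := by ring
    exact le_of_mul_le_mul_left h2 hL0
  calc QD P b N * ℓ ≤ (∑ x ∈ Gd, ind P x * pv (x + b) + (∑ y ∈ BB P N L, pv (y + b) + 6 * L)) * ℓ :=
        mul_le_mul_of_nonneg_right hsplit (by linarith)
    _ = (∑ x ∈ Gd, ind P x * pv (x + b)) * ℓ + ((∑ y ∈ BB P N L, pv (y + b)) * ℓ + 6 * (L * ℓ)) := by ring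
    _ ≤ (4 * cnt P N + ε / 4 * N) + (ε / 4 * N + 6 * (ε / 24 * N)) := by gcongr
    _ ≤ _ := by nlinarith

end Pool.Agent.TH204.CP
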