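import Mathlib
import Pool.Agent.W38.AFc
import Pool.Agent.W41.Dens
import Pool.Agent.W301.SS.Pow
import Pool.Agent.TH204.CP.Bad

/-! Sets invariant under the Collatz map are constant on most short intervals. -/

set_option autoImplicit false

namespace Pool.Agent.TH204.CP
open Finset Filter Topology Pool.Agent.H499R2.CO Pool.Agent.W38.CR Pool.Agent.W38.AF

/-- `log log n` power 17 version of `kap` -/
noncomputable def kp (n : ℕ) : ℝ := √ (Real.log n) / (Real.log (Real.log n)) ^ 17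

/-- the uniform bound -/
noncomputable def lam (N : ℕ) : ℝ := 2 ^ 17 * √ (Real.log N) / (Real.log (Real.log N)) ^ 17

lemma ev_sqrt (k : ℕ) (c : ℝ) : ∀ᶠ x : ℝ in atTop, c * Real.log x ^ k ≤ √ x := by
  have h1 : (fun x : ℝ => Real.log x ^ k) =o[atTop] (fun x : ℝ => x ^ (1 / 2 : ℝ)) := by
    have := isLittleO_log_rpow_rpow_atTop (s := 1 / 2) (k : ℝ) (by norm_num)
    refine this.congr_left fun x => ?_
    rw [Real.rpow_natCast]
  have h2 : ∀ᶠ x : ℝ in atTop, ‖Real.log x ^ k‖ ≤ (1 / (|c| + 1)) * ‖x ^ (1 / 2 : ℝ)‖ :=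
    h1.bound (by positivity)
  filter_upwards [h2, eventually_ge_atTop (1 : ℝ)] with x h4 h5
  have h6 : 0 ≤ Real.log x := Real.log_nonneg h5
  rw [Real.norm_of_nonneg (by positivity), Real.norm_of_nonneg (by positivity)] at h4
  rw [Real.sqrt_eq_rpow]
  have h7 : (0 : ℝ) < |c| + 1 := by positivity
  have h8 : (|c| + 1) * Real.log x ^ k ≤ x ^ (1 / 2 : ℝ) := by
    calc (|c| + 1) * Real.log x ^ k ≤ (|c| + 1) * (1 / (|c| + 1) * x ^ (1 / 2 : ℝ)) :=
          mul_le_mul_of_nonneg_left h4 h7.le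
      _ = _ := by field_simp
  refine le_trans ?_ h8
  apply mul_le_mul_of_nonneg_right _ (by positivity)
  have := le_abs_self c
  linarith

lemma tlog : Tendsto (fun N : ℕ => Real.log (N : ℝ)) atTop atTop :=
  Real.tendsto_log_atTop.comp tendsto_natCast_atTop_atTop

lemma tloglog : Tendsto (fun N : ℕ => Real.log (Real.log (N : ℝ))) atTop atTop :=
  Real.tendsto_log_atTop.comp tlog

lemma F1 : ∀ᶠ N : ℕ in atTop, ∀ n : ℕ, N ≤ n ^ 2 → n ≤ 4 * N → 3 * lam N + 10 ≤ kap n := by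
  filter_upwards [tlog.eventually (ev_sqrt 16 (10 * 2 ^ 18)), tlog.eventually_ge_atTop 16,
    tloglog.eventually_ge_atTop (2 ^ 37)] with N h1 h2 h3 n hn1 hn2
  set ℓ := Real.log (N : ℝ) with hℓ
  set u := Real.log ℓ with hu
  have hu0 : (0 : ℝ) < u := lt_of_lt_of_le (by norm_num) h3
  have hℓ0 : (0 : ℝ) < ℓ := by linarith
  have hNpos : (0 : ℝ) < N := by
    by_contra hcon
    push Not at hcon
    have : (N : ℝ) = 0 := le_antisymm hcon (Nat.cast_nonneg _)
    rw [this, Real.log_zero] at hℓ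
    linarith
  have hn0 : (0 : ℝ) < n := by
    have : (N : ℝ) ≤ (n : ℝ) ^ 2 := by exact_mod_cast hn1
    by_contra hcon
    push Not at hcon
    have h5 : (n : ℝ) = 0 := le_antisymm hcon (Nat.cast_nonneg _)
    rw [h5] at this
    norm_num at this
    exact absurd hNpos (by rw [this]; simp)
  have hl1 : ℓ / 2 ≤ Real.log n := by
    have h5 := Real.log_le_log hNpos (by exact_mod_cast hn1 : (N : ℝ) ≤ (n : ℝ) ^ 2)
    rw [Real.log_pow] at h5
    push_cast at h5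
    linarith
  have hl2 : Real.log n ≤ 2 * ℓ := by
    have h5 := Real.log_le_log hn0 (by exact_mod_cast hn2 : (n : ℝ) ≤ 4 * N)
    rw [Real.log_mul (by norm_num) (by linarith)] at h5
    have := Pool.Agent.W301.SS.log4
    linarith
  have hll : Real.log (Real.log n) ≤ 2 * u := by
    have h5 := Real.log_le_log (by linarith) hl2
    rw [Real.log_mul (by norm_num) (by linarith)] at h5
    have h6 := Real.log_two_lt_d9
    linarith
  have hll0 : 0 < Real.log (Real.log n) := by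
    apply Real.log_pos; linarith
  have hs : √ ℓ ≤ 2 * √ (Real.log n) := by
    rw [Real.sqrt_le_left (by positivity), mul_pow, Real.sq_sqrt (by linarith)]
    linarith
  have hk : √ ℓ / (2 * (2 * u) ^ 16) ≤ kap n := by
    unfold kap
    rw [div_le_div_iff₀ (by positivity) (by positivity)]
    have h5 : Real.log (Real.log n) ^ 16 ≤ (2 * u) ^ 16 := pow_le_pow_left₀ hll0.le hll 16
    calc √ ℓ * Real.log (Real.log n) ^ 16 ≤ (2 * √ (Real.log n)) * (2 * u) ^ 16 := by gcongr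
      _ = _ := by ring
  refine le_trans ?_ hk
  have e1 : 3 * lam N ≤ √ ℓ / (4 * (2 * u) ^ 16) := by
    unfold lam
    rw [← hℓ, ← hu, le_div_iff₀ (by positivity)]
    have e2 : 3 * (2 ^ 17 * √ ℓ / u ^ 17) * (4 * (2 * u) ^ 16) = (3 * 2 ^ 35) * √ ℓ / u := by
      field_simp; ring
    rw [e2, div_le_iff₀ hu0]
    have : 3 * (2 : ℝ) ^ 35 ≤ u := by linarith
    calc 3 * 2 ^ 35 * √ ℓ ≤ u * √ ℓ := by gcongr
      _ = _ := by ring
  have e2 : 10 ≤ √ ℓ / (4 * (2 * u) ^ 16) := by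
    rw [le_div_iff₀ (by positivity)]
    calc 10 * (4 * (2 * u) ^ 16) = 10 * 2 ^ 18 * u ^ 16 := by ring
      _ ≤ √ ℓ := h1
  have e3 : √ ℓ / (4 * (2 * u) ^ 16) + √ ℓ / (4 * (2 * u) ^ 16) = √ ℓ / (2 * (2 * u) ^ 16) := by
    field_simp; ring
  linarith

lemma F2 : ∀ᶠ N : ℕ in atTop, ∀ n : ℕ, N ≤ n ^ 2 → n ≤ N → kp n ≤ lam N := by
  filter_upwards [tlog.eventually_ge_atTop 16, tloglog.eventually_ge_atTop (2 ^ 37)] with N h2 h3 n hn1 hn2
  set ℓ := Real.log (N : ℝ) with hℓ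
  set u := Real.log ℓ with hu
  have hu0 : (0 : ℝ) < u := lt_of_lt_of_le (by norm_num) h3
  have hNpos : (0 : ℝ) < N := by
    by_contra hcon
    push Not at hcon
    have : (N : ℝ) = 0 := le_antisymm hcon (Nat.cast_nonneg _)
    rw [this, Real.log_zero] at hℓ
    linarith
  have hl1 : ℓ / 2 ≤ Real.log n := by
    have h5 := Real.log_le_log hNpos (by exact_mod_cast hn1 : (N : ℝ) ≤ (n : ℝ) ^ 2)
    rw [Real.log_pow] at h5
    push_cast at h5
    linarith
  have hn0 : (0 : ℝ) < n := by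
    by_contra hcon
    push Not at hcon
    have h5 : (n : ℝ) = 0 := le_antisymm hcon (Nat.cast_nonneg _)
    rw [h5, Real.log_zero] at hl1
    linarith
  have hl2 : Real.log n ≤ ℓ := Real.log_le_log hn0 (by exact_mod_cast hn2)
  have hll : u / 2 ≤ Real.log (Real.log n) := by
    have h5 := Real.log_le_log (by linarith) hl1
    rw [Real.log_div (by linarith) (by norm_num)] at h5
    have h6 := Real.log_two_lt_d9
    linarith
  have hll0 : 0 < Real.log (Real.log n) := by linarith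
  unfold kp lam
  rw [← hℓ, ← hu, div_le_div_iff₀ (by positivity) (by positivity)]
  have h5 : (u / 2) ^ 17 ≤ Real.log (Real.log n) ^ 17 := pow_le_pow_left₀ (by positivity) hll 17
  have h6 : u ^ 17 ≤ 2 ^ 17 * Real.log (Real.log n) ^ 17 := by
    calc u ^ 17 = 2 ^ 17 * (u / 2) ^ 17 := by ring
      _ ≤ _ := by gcongr
  have h7 : √ (Real.log n) ≤ √ ℓ := Real.sqrt_le_sqrt hl2
  calc √ (Real.log n) * u ^ 17 ≤ √ ℓ * (2 ^ 17 * Real.log (Real.log n) ^ 17) := by gcongr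
    _ = _ := by ring

lemma F3 (K : ℕ) : ∀ᶠ N : ℕ in atTop, Real.log N ^ K + 1 ≤ Real.exp (lam N) := by
  filter_upwards [tlog.eventually (ev_sqrt 18 (K + 1)), tlog.eventually_ge_atTop 16,
    tloglog.eventually_ge_atTop 1] with N h1 h2 h3
  set ℓ := Real.log (N : ℝ) with hℓ
  set u := Real.log ℓ with hu
  have hu0 : (0 : ℝ) < u := by linarith
  have hℓ0 : (0 : ℝ) < ℓ := by linarith
  have h4 : (K + 1) * u ≤ lam N := by
    unfold lam
    rw [← hℓ, ← hu, le_div_iff₀ (by positivity)]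
    calc (K + 1) * u * u ^ 17 = (K + 1) * u ^ 18 := by ring
      _ ≤ √ ℓ := h1
      _ ≤ 2 ^ 17 * √ ℓ := by
          have : 0 ≤ √ ℓ := Real.sqrt_nonneg _
          linarith
  have h5 : ℓ ^ (K + 1) ≤ Real.exp (lam N) := by
    calc ℓ ^ (K + 1) = Real.exp ((K + 1) * u) := by
          rw [hu, ← Real.exp_log hℓ0, ← Real.exp_nat_mul, Real.log_exp]; push_cast; rfl
      _ ≤ _ := Real.exp_le_exp.2 h4
  have h6 : 1 ≤ ℓ ^ K := one_le_pow₀ (by linarith)
  have h7 : ℓ ^ K + 1 ≤ ℓ ^ (K + 1) := by rw [pow_succ]; nlinarith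
  linarith

lemma F4 (η : ℝ) (hη : 0 < η) : ∀ᶠ N : ℕ in atTop, (2 * Real.exp (lam N)) * Real.log N ≤ η * N := by
  have hf := F3 1
  filter_upwards [tlog.eventually (ev_sqrt 0 (2 ^ 20)), tlog.eventually_ge_atTop 16,
    tloglog.eventually_ge_atTop 1, tlog.eventually_ge_atTop (4 * (Real.log 2 - Real.log η)),
    F3 1] with N h1 h2 h3 h4 h5
  set ℓ := Real.log (N : ℝ) with hℓ
  set u := Real.log ℓ with hu
  have hu0 : (0 : ℝ) < u := by linarith
  have hℓ0 : (0 : ℝ) < ℓ := by linarith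
  have hNpos : (0 : ℝ) < N := by
    by_contra hcon
    push Not at hcon
    have : (N : ℝ) = 0 := le_antisymm hcon (Nat.cast_nonneg _)
    rw [this, Real.log_zero] at hℓ
    linarith
  rw [pow_zero, mul_one] at h1
  rw [pow_one] at h5
  have hs : √ ℓ * √ ℓ = ℓ := Real.mul_self_sqrt hℓ0.le
  have h6 : lam N ≤ ℓ / 4 := by
    unfold lam
    rw [← hℓ, ← hu]
    calc 2 ^ 17 * √ ℓ / u ^ 17 ≤ 2 ^ 17 * √ ℓ / 1 := by
          gcongr
          exact one_le_pow₀ h3
      _ ≤ ℓ / 4 := by nlinarith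
  have h7 : ℓ ≤ Real.exp (lam N) := by linarith
  calc (2 * Real.exp (lam N)) * ℓ ≤ (2 * Real.exp (lam N)) * Real.exp (lam N) := by gcongr
    _ = Real.exp (Real.log 2 + lam N + lam N) := by
        rw [Real.exp_add, Real.exp_add, Real.exp_log (by norm_num)]
    _ ≤ Real.exp (Real.log η + ℓ) := by
        apply Real.exp_le_exp.2
        linarith
    _ = η * N := by rw [Real.exp_add, Real.exp_log hη, hℓ, Real.exp_log hNpos]

lemma half (s : ℤ) (N n : ℕ) (h : 3 * lam N + 10 ≤ kap n) (h0 : 0 ≤ lam N) (hN : Nbr s n) :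
    ∃ t : ℕ, 4 ^ t ≤ n ∧ (∀ z : ℤ, |((z - s * n : ℤ) : ℝ)| ≤ Real.exp (3 * lam N + 10) →
      (Tz 1)^[t] z = (Tz 1)^[t] (s * n)) ∧ ∀ a a' b b' : ℕ, (a : ℝ) ≤ lam N → (a' : ℝ) ≤ lam N →
      (b : ℝ) ≤ lam N → (b' : ℝ) ≤ lam N → ∀ m : ℤ,
      |((2 ^ a * 3 ^ b * m - 2 ^ a' * 3 ^ b' * (s * n) : ℤ) : ℝ)| ≤ Real.exp (3 * lam N + 10) →
      (Tz 1)^[t + a'] m = (Tz 1)^[t + a] (s * n) := by
  obtain ⟨t, ht, h1⟩ := hN
  have hkap : lam N ≤ kap n := by linarith
  have hkap0 : 0 ≤ kap n := by linarith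
  refine ⟨t, ht, fun z hz => ?_, fun a a' b b' ha ha' hb hb' m hm => ?_⟩
  · have := h1 0 0 0 0 (by simpa using hkap0) (by simpa using hkap0) (by simpa using hkap0)
      (by simpa using hkap0) z (by
        simp only [pow_zero, one_mul]
        exact hz.trans (Real.exp_le_exp.2 h))
    simpa using this
  · exact h1 a a' b b' (ha.trans hkap) (ha'.trans hkap) (hb.trans hkap) (hb'.trans hkap) m
      (hm.trans (Real.exp_le_exp.2 h))

/-- the exceptional set -/
lemma exc {s : ℤ} (hs : s = 1 ∨ s = -1) (η : ℝ) (hη : 0 < η) : ∀ᶠ N : ℕ in atTop,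
    ∃ E : Finset ℤ, (E.card : ℝ) ≤ η * N ∧ ∀ n : ℕ, 1 ≤ n → n ≤ N → (n : ℤ) ∉ E → N ≤ n ^ 2 ∧ Nbr s n := by
  classical
  have h1 := (HD_iff.1 (fwdN hs)).eventually (lt_mem_nhds (show 1 - η / 2 < 1 by linarith))
  filter_upwards [h1, tendsto_natCast_atTop_atTop.eventually_ge_atTop ((2 / η) ^ 2 : ℝ),
    eventually_ge_atTop 1] with N h1 h2 h3
  have hNr : (1 : ℝ) ≤ N := by exact_mod_cast h3
  have hN0 : (0 : ℝ) < N := by linarith
  rw [lt_div_iff₀ hN0] at h1
  set E1 : Finset ℕ := (Icc 1 N).filter (fun n => ¬ Nbr s n) with hE1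
  set E2 : Finset ℕ := (Icc 1 N).filter (fun n => n ^ 2 < N) with hE2
  have c1 : (E1.card : ℝ) ≤ η / 2 * N := by
    have h4 := card_filter_add_card_filter_not (s := Icc 1 N) (fun n : ℕ => Nbr s n)
    rw [Nat.card_Icc, Nat.add_sub_cancel] at h4
    have h5 : (((Icc 1 N).filter (fun n => Nbr s n)).card : ℝ) + E1.card = N := by
      rw [hE1]; exact_mod_cast h4
    linarith
  have c2 : (E2.card : ℝ) ≤ η / 2 * N := by
    have h4 : E2 ⊆ Icc 1 ⌊√ (N : ℝ)⌋₊ := by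
      intro n hn
      rw [hE2, mem_filter, mem_Icc] at hn
      rw [mem_Icc]
      refine ⟨hn.1.1, Nat.le_floor ?_⟩
      apply Real.le_sqrt_of_sq_le
      exact_mod_cast hn.2.le
    have h5 := card_le_card h4
    rw [Nat.card_Icc, Nat.add_sub_cancel] at h5
    have h6 : (E2.card : ℝ) ≤ √ (N : ℝ) := le_trans (by exact_mod_cast h5) (Nat.floor_le (Real.sqrt_nonneg _))
    refine h6.trans ?_
    have h7 : 2 / η ≤ √ (N : ℝ) := Real.le_sqrt_of_sq_le h2
    rw [div_le_iff₀ hη] at h7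
    have h8 : √ (N : ℝ) * √ (N : ℝ) = N := Real.mul_self_sqrt hN0.le
    have h9 : 0 ≤ √ (N : ℝ) := Real.sqrt_nonneg _
    nlinarith
  refine ⟨(E1 ∪ E2).map ⟨fun n : ℕ => (n : ℤ), Nat.cast_injective⟩, ?_, ?_⟩
  · rw [card_map]
    have : ((E1 ∪ E2).card : ℝ) ≤ E1.card + E2.card := by exact_mod_cast card_union_le _ _
    linarith
  · intro n hn1 hn2 hnE
    rw [Finset.mem_map] at hnE
    constructor
    · by_contra hcon
      apply hnE
      refine ⟨n, mem_union_right _ ?_, rfl⟩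
      rw [hE2, mem_filter, mem_Icc]
      exact ⟨⟨hn1, hn2⟩, by omega⟩
    · by_contra hcon
      apply hnE
      refine ⟨n, mem_union_left _ ?_, rfl⟩
      rw [hE1, mem_filter, mem_Icc]
      exact ⟨⟨hn1, hn2⟩, hcon⟩

/-- invariance -/
lemma inv_iter {S : Set ℤ} (hS : ∀ x, x ∈ S ↔ Tz 1 x ∈ S) (t : ℕ) (x : ℤ) :
    x ∈ S ↔ (Tz 1)^[t] x ∈ S := by
  induction t generalizing x with
  | zero => rfl
  | succ t ih => rw [Function.iterate_succ_apply, ← ih, ← hS]

/-- local constancy of all invariant sets, at the scale `L` -/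
theorem locS {s : ℤ} (hs : s = 1 ∨ s = -1) (η : ℝ) (hη : 0 < η) : ∀ᶠ N : ℕ in atTop,
    ∃ E : Finset ℤ, (E.card : ℝ) ≤ η * N ∧ ∀ L : ℕ, (L : ℝ) ≤ 2 * Real.exp (lam N) →
      ∀ S : Set ℤ, (∀ x, x ∈ S ↔ Tz 1 x ∈ S) →
        (∀ n ∈ Icc (1 : ℤ) N, n ∉ E → ∀ h ∈ Icc (-(3 * L : ℤ)) (3 * L), s * (n + h) ∈ S ↔ s * n ∈ S) := by
  filter_upwards [exc hs η hη, F1, F3 0] with N h1 h2 h3
  obtain ⟨E, hE1, hE2⟩ := h1
  refine ⟨E, hE1, fun L hL S hS n hn hnE h hh => ?_⟩
  rw [mem_Icc] at hn hh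
  obtain ⟨m, rfl⟩ : ∃ m : ℕ, n = m := ⟨n.toNat, by omega⟩
  obtain ⟨g1, g2⟩ := hE2 m (by omega) (by omega) hnE
  have g3 := h2 m g1 (by omega)
  have hlam0 : 0 ≤ lam N := by
    rw [pow_zero] at h3
    have : Real.exp 0 ≤ Real.exp (lam N) := by rw [Real.exp_zero]; linarith
    exact Real.exp_le_exp.1 this
  obtain ⟨t, _, g4, _⟩ := half s N m g3 hlam0 g2
  have hss : |(s : ℝ)| = 1 := by rcases hs with rfl | rfl <;> simp
  have g5 := g4 (s * (m + h)) (by
    have e1 : ((s * ((m : ℤ) + h) - s * m : ℤ) : ℝ) = s * h := by push_cast; ring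
    rw [e1, abs_mul, hss, one_mul]
    have e2 : |(h : ℝ)| ≤ 3 * L := by
      rw [abs_le]
      constructor
      · have : -(3 * (L : ℤ)) ≤ h := hh.1
        exact_mod_cast this
      · have : h ≤ 3 * (L : ℤ) := hh.2
        exact_mod_cast this
    refine e2.trans ?_
    calc 3 * (L : ℝ) ≤ 3 * (2 * Real.exp (lam N)) := by gcongr
      _ = 6 * Real.exp (lam N) := by ring
      _ ≤ Real.exp 10 * Real.exp (3 * lam N) := by
          apply mul_le_mul
          · have := Real.add_one_le_exp (10 : ℝ); linarith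
          · exact Real.exp_le_exp.2 (by linarith)
          · positivity
          · positivity
      _ = _ := by rw [← Real.exp_add]; congr 1; ring)
  rw [inv_iter hS t, g5, ← inv_iter hS t]

end Pool.Agent.TH204.CP
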