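import Mathlib
import Pool.Agent.TH204.CP.Core3

/-! Sums `n = p + x`, `P x`, for almost all `n`. -/

set_option autoImplicit false

namespace Pool.Agent.TH204.CP
open Finset Filter Pool.Agent.W301.SS

/-- one block of the grid -/
lemma block {ε₁ η₁ δ ε : ℝ} (hη1 : 0 < η₁) (hε1 : 0 < ε₁) (hε12 : ε₁ ≤ 1)
    (hsum : 8 * η₁ + 8 * ε₁ ≤ ε)
    {P : ℤ → Prop} {M n : ℕ} (hM : 3 ≤ M) (hMn : M < n) (hn2 : n ≤ 2 * M) (hnM : ((n - M : ℕ) : ℝ) ≤ η₁ * M)
    (hpi : ∀ m : ℕ, m ≤ 4 * M → |(Nat.primeCounting m : ℝ) * Real.log M - m| ≤ ε₁ * M)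
    (hQ : |QS P n M * Real.log M - cnt P M| ≤ ε₁ * M) (hδ : |cnt P M - δ * M| ≤ ε₁ * M) :
    |QS P n n * Real.log n - δ * n| ≤ ε * n := by
  have hM0 : (3 : ℝ) ≤ M := by exact_mod_cast hM
  have hMn' : (M : ℝ) ≤ n := by exact_mod_cast hMn.le
  have hd : (n : ℝ) - M ≤ η₁ * M := by
    rw [Nat.cast_sub hMn.le] at hnM; exact hnM
  set ℓ := Real.log M with hℓ
  have hℓ0 : 0 < ℓ := Real.log_pos (by linarith)
  have hln : ℓ ≤ Real.log n := Real.log_le_log (by linarith) hMn'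
  have hln2 : Real.log n ≤ ℓ + η₁ := by
    have h1 : Real.log n = ℓ + Real.log (n / M) := by
      rw [Real.log_div (by linarith) (by linarith)]; ring
    rw [h1]
    have h2 := Real.log_le_sub_one_of_pos (show (0 : ℝ) < n / M by
      apply div_pos <;> linarith)
    have h3 : (n : ℝ) / M - 1 ≤ η₁ := by
      rw [sub_le_iff_le_add, div_le_iff₀ (by linarith)]; linarith
    linarith
  obtain ⟨t1, t2⟩ := QS_tail P n M hMn
  have p1 := (abs_le.1 (hpi (n - M) (by omega))).2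
  have p2 : (Nat.primeCounting (n - M) : ℝ) * ℓ ≤ (η₁ + ε₁) * M := by linarith
  have q0 : 0 ≤ QS P n M := sum_nonneg fun x _ => mul_nonneg (ind_mem P x).1 (pv_mem _).1
  have qn : QS P n n ≤ n := by
    unfold QS
    have h1 : ∑ x ∈ Icc (1 : ℤ) n, ind P x * pv (n - x) ≤ ∑ x ∈ Icc (1 : ℤ) n, (1 : ℝ) :=
      sum_le_sum fun x _ => mul_le_one₀ (ind_mem P x).2 (pv_mem _).1 (pv_mem _).2
    refine h1.trans (le_of_eq ?_)
    rw [sum_const, Int.card_Icc, nsmul_eq_mul, mul_one]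
    congr 1
    omega
  have c1 := cnt_le P M
  have c0 := cnt_nonneg P M
  have hQ' := abs_le.1 hQ
  have hδ' := abs_le.1 hδ
  have hM0' : (0 : ℝ) < M := by linarith
  have hδ2 : |δ| ≤ 2 := by
    rw [abs_le]
    constructor
    · by_contra hcon
      push Not at hcon
      have : δ * M < -2 * M := mul_lt_mul_of_pos_right hcon hM0'
      nlinarith
    · by_contra hcon
      push Not at hcon
      have : 2 * (M : ℝ) < δ * M := mul_lt_mul_of_pos_right hcon hM0'
      nlinarith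
  have hδn : |δ * n - δ * M| ≤ 2 * (η₁ * M) := by
    rw [← mul_sub, abs_mul, abs_of_nonneg (by linarith : (0 : ℝ) ≤ (n : ℝ) - M)]
    apply mul_le_mul hδ2 hd (by linarith) (by norm_num)
  have hδn' := abs_le.1 hδn
  have k1 : QS P n n * ℓ ≤ QS P n M * ℓ + (η₁ + ε₁) * M := by
    have : (QS P n n - QS P n M) * ℓ ≤ (Nat.primeCounting (n - M) : ℝ) * ℓ :=
      mul_le_mul_of_nonneg_right t2 hℓ0.le
    nlinarith
  have k2 : QS P n M * ℓ ≤ QS P n n * ℓ := mul_le_mul_of_nonneg_right (by linarith) hℓ0.le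
  have k3 : QS P n n * ℓ ≤ QS P n n * Real.log n := mul_le_mul_of_nonneg_left hln (by linarith)
  have k4 : QS P n n * Real.log n ≤ QS P n n * ℓ + n * η₁ := by
    calc QS P n n * Real.log n ≤ QS P n n * (ℓ + η₁) := mul_le_mul_of_nonneg_left hln2 (by linarith)
      _ = QS P n n * ℓ + QS P n n * η₁ := by ring
      _ ≤ _ := by gcongr
  have hMM : (M : ℝ) * (8 * η₁ + 8 * ε₁) ≤ n * ε := by
    apply mul_le_mul hMn' hsum (by positivity) (by linarith)
  have hnη : (n : ℝ) * η₁ ≤ 2 * M * η₁ := by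
    apply mul_le_mul_of_nonneg_right _ hη1.le
    exact_mod_cast hn2
  rw [abs_le]
  constructor <;> nlinarith

theorem sums (C : ℕ) (ε : ℝ) (hε : 0 < ε) : ∃ (K : ℕ) (η : ℝ), 0 < η ∧ ∀ᶠ N : ℕ in atTop,
    ∀ L : ℕ, Real.log N ^ K ≤ L → (L : ℝ) * Real.log N ≤ η * N → ∀ (P : ℤ → Prop) (E : Finset ℤ),
    (E.card : ℝ) ≤ η * N → LocE P E (2 * N) L → ∀ δ : ℝ,
    (∀ M : ℕ, N ≤ M → M ≤ 2 * N → |cnt P M - δ * M| ≤ η * M) →
    ∃ X : Finset ℕ, X ⊆ Ioc N (2 * N) ∧ (X.card : ℝ) * Real.log N ^ C ≤ N ∧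
      ∀ n ∈ Ioc N (2 * N), n ∉ X → |QS P n n * Real.log n - δ * n| ≤ ε * n := by
  classical
  set ε₁ : ℝ := min (ε / 16) 1 with hε₁
  have he0 : 0 < ε₁ := lt_min (by positivity) one_pos
  have he1 : ε₁ ≤ 1 := min_le_right _ _
  have he2 : ε₁ ≤ ε / 16 := min_le_left _ _
  obtain ⟨K, η, hη0, h⟩ := core3 (C + 1) ε₁ he0
  refine ⟨K + 1, min (η / 4) ε₁, lt_min (by positivity) he0, ?_⟩
  set J : ℕ := ⌈2 / ε₁⌉₊ with hJ
  have hJ1 : 2 / ε₁ ≤ J := Nat.le_ceil _
  obtain ⟨N0, hN0⟩ := eventually_atTop.1 (h.and ((pi_unif ε₁ he0).and (ev_L 1)))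
  filter_upwards [eventually_ge_atTop N0, ev_L (2 * ((J : ℝ) + 1) + 2 ^ (K + 2)),
    ev_L 1, eventually_ge_atTop (⌈2 / ε₁⌉₊ + 16)] with
    N hNN hℓJ hℓ1 hN16 L hL1 hL2 P E hE1 hE2 δ hδ
  have hN16' : 16 ≤ N := by omega
  have hNr : (16 : ℝ) ≤ N := by exact_mod_cast hN16'
  have hNp : (0 : ℝ) < N := by linarith
  set ℓ := Real.log N with hℓ
  have hNε : 2 / ε₁ ≤ N := by
    have : (⌈2 / ε₁⌉₊ : ℝ) ≤ N := by exact_mod_cast (by omega : ⌈2 / ε₁⌉₊ ≤ N)
    exact (Nat.le_ceil _).trans this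
  set g : ℕ := ⌊ε₁ * N⌋₊ with hg
  have hg1 : (g : ℝ) ≤ ε₁ * N := Nat.floor_le (by positivity)
  have hg2 : ε₁ * N / 2 ≤ g := by
    have h1 := Nat.lt_floor_add_one (ε₁ * (N : ℝ))
    rw [← hg] at h1
    have h2 : 2 ≤ ε₁ * N := by
      rw [div_le_iff₀ he0] at hNε; linarith
    linarith
  have hg0 : 0 < g := by
    have : (0 : ℝ) < g := lt_of_lt_of_le (by positivity) hg2
    exact_mod_cast this
  -- the exceptional set of one block
  have hblock : ∀ M : ℕ, N ≤ M → M ≤ 2 * N → ∃ X : Finset ℕ, (X.card : ℝ) * ℓ ^ (C + 1) ≤ 2 * N ∧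
      ∀ n : ℕ, M < n → n ≤ 2 * N → n ≤ M + g → n ∉ X → |QS P n n * Real.log n - δ * n| ≤ ε * n := by
    intro M hM1 hM2
    have hM1r : (N : ℝ) ≤ M := by exact_mod_cast hM1
    have hM2r : (M : ℝ) ≤ 2 * N := by exact_mod_cast hM2
    have hlM1 : ℓ ≤ Real.log M := Real.log_le_log hNp hM1r
    have hlM2 : Real.log M ≤ 2 * ℓ := by
      have h1 := Real.log_le_log (by linarith) hM2r
      rw [Real.log_mul (by norm_num) (by linarith)] at h1
      have := Real.log_two_lt_d9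
      linarith
    obtain ⟨h1, h2, h3⟩ := hN0 M (by omega)
    have hLM1 : Real.log M ^ K ≤ L := by
      calc Real.log M ^ K ≤ (2 * ℓ) ^ K := pow_le_pow_left₀ (by linarith) hlM2 K
        _ = 2 ^ K * ℓ ^ K := mul_pow _ _ _
        _ ≤ ℓ * ℓ ^ K := by
            apply mul_le_mul_of_nonneg_right _ (by positivity)
            have : (2 : ℝ) ^ K ≤ 2 ^ (K + 2) := pow_le_pow_right₀ (by norm_num) (by omega)
            have : (0 : ℝ) ≤ 2 * ((J : ℝ) + 1) := by positivity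
            linarith
        _ = ℓ ^ (K + 1) := by ring
        _ ≤ L := hL1
    have hLM2 : (L : ℝ) * Real.log M ≤ η * M := by
      calc (L : ℝ) * Real.log M ≤ L * (2 * ℓ) := by gcongr
        _ = 2 * (L * ℓ) := by ring
        _ ≤ 2 * (min (η / 4) ε₁ * N) := by gcongr
        _ ≤ 2 * (η / 4 * N) := by gcongr; exact min_le_left _ _
        _ ≤ η * M := by nlinarith
    have hEM : (E.card : ℝ) ≤ η * M := by
      calc (E.card : ℝ) ≤ min (η / 4) ε₁ * N := hE1
        _ ≤ η / 4 * N := by gcongr; exact min_le_left _ _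
        _ ≤ η * M := by nlinarith
    obtain ⟨_, ⟨X, hX1, hX2, hX3⟩⟩ := h1 L hLM1 hLM2 P E hEM (LocE_mono hE2 hM2)
    refine ⟨X.image (fun b : ℕ => M + b), ?_, ?_⟩
    · have hci : ((X.image (fun b : ℕ => M + b)).card : ℝ) ≤ X.card := by
        exact_mod_cast (card_image_le (s := X) (f := fun b : ℕ => M + b))
      calc ((X.image (fun b : ℕ => M + b)).card : ℝ) * ℓ ^ (C + 1) ≤ X.card * Real.log M ^ (C + 1) := by
            gcongr
        _ ≤ M := hX2
        _ ≤ 2 * N := hM2r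
    · intro n hn1 hn2 hn3 hnX
      have hb : n - M ∈ Icc 1 M := by rw [mem_Icc]; omega
      have hbX : n - M ∉ X := by
        intro hh
        exact hnX (Finset.mem_image.2 ⟨n - M, hh, by omega⟩)
      have g1 := hX3 (n - M) hb hbX
      have e1 : ((M : ℤ) + ((n - M : ℕ) : ℤ)) = (n : ℤ) := by omega
      rw [e1] at g1
      refine block (ε₁ := ε₁) (η₁ := ε₁) he0 he0 he1 (by linarith) (by omega) hn1 (by omega) ?_ h2 g1 ?_
      · calc ((n - M : ℕ) : ℝ) ≤ g := by exact_mod_cast (by omega : n - M ≤ g)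
          _ ≤ ε₁ * N := hg1
          _ ≤ ε₁ * M := by gcongr
      · refine (hδ M hM1 hM2).trans ?_
        apply mul_le_mul_of_nonneg_right (min_le_right _ _) (Nat.cast_nonneg _)
  choose! Xf hXf1 hXf2 using hblock
  set X : Finset ℕ := (Ioc N (2 * N)).filter
    (fun n => n ∈ ((range (J + 1)).filter (fun j => N + j * g ≤ 2 * N)).biUnion (fun j => Xf (N + j * g))) with hX
  refine ⟨X, filter_subset _ _, ?_, ?_⟩
  · have hc1 : (X.card : ℝ) ≤ ∑ j ∈ (range (J + 1)).filter (fun j => N + j * g ≤ 2 * N),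
        ((Xf (N + j * g)).card : ℝ) := by
      have h1 : X.card ≤ (((range (J + 1)).filter (fun j => N + j * g ≤ 2 * N)).biUnion
          (fun j => Xf (N + j * g))).card := by
        apply card_le_card
        intro n hn
        exact (mem_filter.1 hn).2
      exact_mod_cast h1.trans card_biUnion_le
    have hℓp : 0 < ℓ ^ (C + 1) := by positivity
    have hc2 : (X.card : ℝ) * ℓ ^ (C + 1) ≤ (J + 1) * (2 * N) := by
      calc (X.card : ℝ) * ℓ ^ (C + 1) ≤
            (∑ j ∈ (range (J + 1)).filter (fun j => N + j * g ≤ 2 * N),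
              ((Xf (N + j * g)).card : ℝ)) * ℓ ^ (C + 1) := mul_le_mul_of_nonneg_right hc1 hℓp.le
        _ = ∑ j ∈ (range (J + 1)).filter (fun j => N + j * g ≤ 2 * N),
              ((Xf (N + j * g)).card : ℝ) * ℓ ^ (C + 1) := sum_mul _ _ _
        _ ≤ ∑ j ∈ (range (J + 1)).filter (fun j => N + j * g ≤ 2 * N), (2 * N : ℝ) := by
            apply sum_le_sum
            intro j hj
            exact hXf1 _ (by omega) (mem_filter.1 hj).2
        _ = (((range (J + 1)).filter (fun j => N + j * g ≤ 2 * N)).card : ℝ) * (2 * N) := by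
            rw [sum_const, nsmul_eq_mul]
        _ ≤ _ := by
            apply mul_le_mul_of_nonneg_right _ (by positivity)
            have := card_filter_le (range (J + 1)) (fun j => N + j * g ≤ 2 * N)
            rw [card_range] at this
            exact_mod_cast this
    have hc3 : ℓ * ((X.card : ℝ) * ℓ ^ C) ≤ ℓ * N := by
      calc ℓ * ((X.card : ℝ) * ℓ ^ C) = (X.card : ℝ) * ℓ ^ (C + 1) := by ring
        _ ≤ (J + 1) * (2 * N) := hc2
        _ = (2 * ((J : ℝ) + 1)) * N := by ring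
        _ ≤ ℓ * N := by
            apply mul_le_mul_of_nonneg_right _ hNp.le
            have : (0 : ℝ) ≤ 2 ^ (K + 2) := by positivity
            linarith
    exact le_of_mul_le_mul_left hc3 (by linarith)
  · intro n hn hnX
    rw [mem_Ioc] at hn
    set j := (n - N - 1) / g with hj
    have hj1 : j * g ≤ n - N - 1 := Nat.div_mul_le_self _ _
    have hj2 : n - N - 1 < j * g + g := by
      have := Nat.lt_div_mul_add hg0 (a := n - N - 1)
      rw [← hj] at this
      exact this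
    have hjJ : j < J + 1 := by
      have h1 : (j : ℝ) * g ≤ N := by
        have : j * g ≤ N := by omega
        exact_mod_cast this
      have h2 : (j : ℝ) * (ε₁ * N / 2) ≤ N := (mul_le_mul_of_nonneg_left hg2 (Nat.cast_nonneg _)).trans h1
      have h3 : (j : ℝ) ≤ 2 / ε₁ := by
        rw [le_div_iff₀ he0]
        have : (j : ℝ) * ε₁ * N ≤ 2 * N := by linarith
        exact le_of_mul_le_mul_right this hNp
      have h4 : (j : ℝ) ≤ J := h3.trans hJ1
      have : j ≤ J := by exact_mod_cast h4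
      omega
    apply hXf2 (N + j * g) (by omega) (by omega) n (by omega) hn.2 (by omega)
    intro hmem
    apply hnX
    rw [hX, mem_filter]
    refine ⟨mem_Ioc.2 hn, ?_⟩
    rw [mem_biUnion]
    exact ⟨j, mem_filter.2 ⟨mem_range.2 hjJ, by omega⟩, hmem⟩

end Pool.Agent.TH204.CP
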