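import Mathlib
import Pool.Agent.W41.FU9
import Pool.Agent.TH204.CP.Collatz3

/-! Linear forms in two primes from arbitrary sets: averaging over short intervals. -/

set_option autoImplicit false

namespace Pool.Agent.TH204.CP
open Finset Filter Topology Pool.Agent.W301.SS

/-- the windows with many primes are few and contain few primes -/
lemma crowded (ε : ℝ) (hε : 0 < ε) : ∀ᶠ N : ℕ in atTop, ∀ L : ℕ, Real.log N ^ 20 ≤ L →
    (∑ n ∈ (Icc 1 N).filter (fun n => 5 * (L : ℝ) < pn n L * Real.log N), (pn n L : ℝ)) * Real.log N ≤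
      ε * N * L := by
  set δ : ℝ := min (ε / 40) (1 / 64) with hδ
  have hδ0 : 0 < δ := lt_min (by positivity) (by norm_num)
  have hδ1 : δ ≤ 1 / 64 := min_le_right _ _
  have hδ2 : δ ≤ ε / 40 := min_le_left _ _
  filter_upwards [subU δ hδ0 (by linarith), ev_L 1, eventually_ge_atTop 1] with N h1 h2 h3 L hL
  set G := (Icc 1 N).filter (fun n => 5 * (L : ℝ) < pn n L * Real.log N) with hG
  have hN0 : (0 : ℝ) ≤ N := Nat.cast_nonneg _
  have hLr : (1 : ℝ) ≤ L := (one_le_pow₀ h2).trans hL
  have h4 := h1 G (filter_subset _ _) L hL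
  have h5 : (5 * (G.card : ℝ)) * L ≤ (∑ n ∈ G, (pn n L : ℝ)) * Real.log N := by
    rw [sum_mul]
    calc (5 * (G.card : ℝ)) * L = ∑ n ∈ G, 5 * (L : ℝ) := by rw [sum_const, nsmul_eq_mul]; ring
      _ ≤ _ := sum_le_sum fun n hn => (mem_filter.1 hn).2.le
  have h6 : 5 * (G.card : ℝ) ≤ (4 + 16 * δ) * G.card + 2 * δ * N :=
    le_of_mul_le_mul_right (h5.trans h4) (by linarith)
  have hG0 : (0 : ℝ) ≤ G.card := Nat.cast_nonneg _
  have h7 : (G.card : ℝ) ≤ 4 * δ * N := by nlinarith
  refine h4.trans ?_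
  apply mul_le_mul_of_nonneg_right _ (by linarith)
  have h8 : (4 + 16 * δ) * (G.card : ℝ) ≤ 5 * (4 * δ * N) := by
    apply mul_le_mul (by linarith) h7 hG0 (by norm_num)
  nlinarith

/-- the function on the integers `F z = f (s z)` for `s z ≥ 1`, zero otherwise -/
noncomputable def Fs (s : ℤ) (f : ℤ → ℝ) (z : ℤ) : ℝ := if 1 ≤ s * z then f (s * z) else 0

lemma Fs_abs {s : ℤ} {f : ℤ → ℝ} (hf : ∀ x, |f x| ≤ 1) (z : ℤ) : |Fs s f z| ≤ 1 := by
  unfold Fs
  split_ifs
  · exact hf _
  · simp

/-- `f` is constant on the intervals `[n - 3 L, n + 3 L]`, `n ∈ [1, N]` outside `E` -/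
def Loc2 (f : ℤ → ℝ) (E : Finset ℤ) (N L : ℕ) : Prop :=
  ∀ n ∈ Icc (1 : ℤ) N, n ∉ E → ∀ h ∈ Icc (-(3 * L : ℤ)) (3 * L), f (n + h) = f n

open Classical in
/-- the integers `p ≤ N` at which `F (a p + b₀)` changes -/
noncomputable def BP (s a b₀ : ℤ) (f : ℤ → ℝ) (N L : ℕ) : Finset ℤ :=
  (Icc (1 : ℤ) N).filter (fun p => ∃ h ∈ Icc (-(L : ℤ)) L, Fs s f (a * (p - h) + b₀) ≠ Fs s f (a * p + b₀))

/-- few primes `p` are bad for `F (a p + b₀)`, uniformly in `b₀` -/
theorem badlin (ε : ℝ) (hε : 0 < ε) : ∃ η : ℝ, 0 < η ∧ ∀ᶠ N : ℕ in atTop, ∀ L : ℕ,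
    Real.log N ^ 21 ≤ L → (L : ℝ) * Real.log N ≤ η * N → ∀ (s a b₀ : ℤ), (s = 1 ∨ s = -1) → a ≠ 0 →
    ∀ (f : ℤ → ℝ) (E : Finset ℤ) (N' L' : ℕ), (E.card : ℝ) ≤ η * N → Loc2 f E N' L' →
    |a| * L ≤ L' → |a| * (2 * N) + |b₀| ≤ N' →
    (∑ p ∈ BP s a b₀ f N L, pv p) * Real.log N ≤ ε * N := by
  classical
  obtain ⟨η, hη0, hη⟩ := badprimes (ε / 2) (by positivity)
  refine ⟨min η (min (ε / 20) 1), lt_min hη0 (lt_min (by positivity) one_pos), ?_⟩
  filter_upwards [hη, ev_L 1, eventually_ge_atTop 16] with N h1 hℓ1 hN16 L hL1 hL2 s a b₀ hs ha f E N' L' hE hloc haL haN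
  have hNr : (16 : ℝ) ≤ N := by exact_mod_cast hN16
  have hN0 : (0 : ℝ) < N := by linarith
  set ℓ := Real.log N with hℓ
  have hLr : (1 : ℝ) ≤ L := (one_le_pow₀ hℓ1).trans hL1
  have hLn : 1 ≤ L := by exact_mod_cast hLr
  have haabs : 1 ≤ |a| := Int.one_le_abs ha
  have hss : s * s = 1 := by rcases hs with rfl | rfl <;> norm_num
  have hsabs : |s| = 1 := by rcases hs with rfl | rfl <;> norm_num
  set B := BP s a b₀ f N L with hB
  have hBmem : ∀ p ∈ B, 1 ≤ p ∧ p ≤ N ∧ ∃ h ∈ Icc (-(L : ℤ)) L,
      Fs s f (a * (p - h) + b₀) ≠ Fs s f (a * p + b₀) := by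
    intro p hp
    rw [hB] at hp
    unfold BP at hp
    rw [mem_filter, mem_Icc] at hp
    exact ⟨hp.1.1, hp.1.2, hp.2⟩
  set B1 : Finset ℤ := B.filter (fun p => 2 * (L : ℤ) < p ∧ 3 * |a| * L < s * (a * p + b₀)) with hB1
  set E1 : Finset ℤ := (Icc (1 : ℤ) N).filter (fun j => s * (a * j + b₀) ∈ E) with hE1
  have hE1c : (E1.card : ℝ) ≤ η * N := by
    have h2 : E1.card ≤ E.card := by
      apply card_le_card_of_injOn (fun j => s * (a * j + b₀))
      · intro j hj
        rw [mem_coe, hE1, mem_filter] at hj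
        exact hj.2
      · intro x _ y _ hxy
        simp only at hxy
        have h3 : s * (s * (a * x + b₀)) = s * (s * (a * y + b₀)) := by rw [hxy]
        rw [← mul_assoc, ← mul_assoc, hss, one_mul, one_mul] at h3
        exact mul_left_cancel₀ ha (by linarith)
    have h3 : (E1.card : ℝ) ≤ E.card := by exact_mod_cast h2
    exact h3.trans (hE.trans (mul_le_mul_of_nonneg_right (min_le_left _ _) hN0.le))
  have hbad : (∑ p ∈ B1, pv p) * ℓ ≤ ε / 2 * N := by
    refine h1 L hL1 E1 hE1c pv (fun y => (pv_mem _).1) (fun n => (n + L - 1).toNat) ?_ ?_ ?_ B1 ?_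
    · intro x hx y hy hxy
      rw [mem_coe, hE1, mem_filter, mem_Icc] at hx hy
      simp only at hxy
      omega
    · intro n hn
      rw [hE1, mem_filter, mem_Icc] at hn
      have hLN : L ≤ N := by
        have h4 : (L : ℝ) ≤ L * ℓ := le_mul_of_one_le_right (by linarith) hℓ1
        have h5 : min η (min (ε / 20) 1) * (N : ℝ) ≤ 1 * N :=
          mul_le_mul_of_nonneg_right ((min_le_right _ _).trans (min_le_right _ _)) hN0.le
        have h6 : (L : ℝ) ≤ N := by linarith
        exact_mod_cast h6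
      rw [mem_Icc]; omega
    · intro n hn
      rw [hE1, mem_filter, mem_Icc] at hn
      have e1 := window (n + L - 1).toNat L (n + L) (by omega)
      rw [← e1]
      apply le_of_eq
      rw [show n + 2 * (L : ℤ) = n + L + L by ring]
    · intro p hp n hn
      rw [hB1, mem_filter] at hp
      obtain ⟨hpB, hp2, hp3⟩ := hp
      obtain ⟨g1, g2, h, hh, hne⟩ := hBmem p hpB
      rw [mem_Icc] at hn hh
      rw [hE1, mem_filter, mem_Icc]
      refine ⟨⟨by omega, by omega⟩, ?_⟩
      by_contra hnE
      apply hne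
      -- the two values are equal to the value at the good point
      set y := s * (a * p + b₀) with hy
      set y1 := s * (a * n + b₀) with hy1
      have d1 : |y - y1| ≤ 2 * (|a| * L) := by
        have e : y - y1 = s * (a * (p - n)) := by rw [hy, hy1]; ring
        rw [e, abs_mul, hsabs, one_mul, abs_mul, abs_of_nonneg (by omega : 0 ≤ p - n)]
        have : |a| * (p - n) ≤ |a| * (2 * L) := mul_le_mul_of_nonneg_left (by omega) (by omega)
        linarith
      have d1' := abs_le.1 d1
      have hy1pos : 1 ≤ y1 := by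
        have : 3 * (|a| * (L : ℤ)) < y := by linarith
        have h5 : 0 ≤ |a| * (L : ℤ) := by positivity
        omega
      have hy1N : y1 ≤ N' := by
        have e : y1 ≤ |a * n + b₀| := by
          rw [hy1]
          rcases hs with rfl | rfl
          · rw [one_mul]; exact le_abs_self _
          · rw [neg_one_mul]; exact neg_le_abs _
        have e2 : |a * n + b₀| ≤ |a| * (2 * N) + |b₀| := by
          refine (abs_add_le _ _).trans ?_
          rw [abs_mul]
          have : |n| ≤ 2 * N := by rw [abs_le]; constructor <;> omega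
          have := mul_le_mul_of_nonneg_left this (abs_nonneg a)
          linarith
        linarith
      have hgood := hloc y1 (by rw [mem_Icc]; exact ⟨hy1pos, hy1N⟩) hnE
      have val : ∀ z : ℤ, |s * z - y1| ≤ 3 * (|a| * L) → 1 ≤ s * z → Fs s f z = f y1 := by
        intro z hz hz1
        unfold Fs
        rw [if_pos hz1]
        have hz' := abs_le.1 hz
        have h6 := hgood (s * z - y1) (by rw [mem_Icc]; constructor <;> linarith)
        rwa [add_sub_cancel] at h6
      have v1 : Fs s f (a * p + b₀) = f y1 := by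
        apply val
        · rw [← hy]
          have h5 : 0 ≤ |a| * (L : ℤ) := by positivity
          rw [abs_le]; constructor <;> linarith
        · rw [← hy]
          have h5 : 0 ≤ |a| * (L : ℤ) := by positivity
          have : 3 * (|a| * (L : ℤ)) < y := by linarith
          omega
      have d2 : |s * (a * (p - h) + b₀) - y| ≤ |a| * L := by
        have e : s * (a * (p - h) + b₀) - y = s * (a * (-h)) := by rw [hy]; ring
        rw [e, abs_mul, hsabs, one_mul, abs_mul, abs_neg]
        apply mul_le_mul_of_nonneg_left _ (abs_nonneg a)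
        rw [abs_le]; constructor <;> omega
      have d2' := abs_le.1 d2
      have v2 : Fs s f (a * (p - h) + b₀) = f y1 := by
        apply val
        · rw [abs_le]; constructor <;> linarith
        · have h5 : 0 ≤ |a| * (L : ℤ) := by positivity
          have : 3 * (|a| * (L : ℤ)) < y := by linarith
          have h6 : |a| * (L : ℤ) < s * (a * (p - h) + b₀) := by linarith
          omega
      rw [v1, v2]
  -- the rest
  have hrest : ∑ p ∈ B.filter (fun p => ¬ (2 * (L : ℤ) < p ∧ 3 * |a| * L < s * (a * p + b₀))), pv p ≤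
      10 * L := by
    have h2 : B.filter (fun p => ¬ (2 * (L : ℤ) < p ∧ 3 * |a| * L < s * (a * p + b₀))) ⊆
        Icc (1 : ℤ) (2 * L) ∪ (Icc (1 : ℤ) N).filter (fun p => |a * p + b₀| ≤ 3 * |a| * L) := by
      intro p hp
      rw [mem_filter] at hp
      obtain ⟨hpB, hp2⟩ := hp
      obtain ⟨g1, g2, h, hh, hne⟩ := hBmem p hpB
      rw [mem_union, mem_Icc, mem_filter, mem_Icc]
      by_cases hp3 : 2 * (L : ℤ) < p
      · right
        refine ⟨⟨g1, g2⟩, ?_⟩
        have hp4 : s * (a * p + b₀) ≤ 3 * |a| * L := by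
          by_contra hcon
          exact hp2 ⟨hp3, by omega⟩
        by_contra hcon
        push Not at hcon
        apply hne
        rw [mem_Icc] at hh
        have h5 : s * (a * p + b₀) < -(3 * |a| * L) := by
          rcases hs with rfl | rfl
          · rw [one_mul] at hp4 ⊢
            rcases lt_abs.1 hcon with h6 | h6
            · omega
            · omega
          · rw [neg_one_mul] at hp4 ⊢
            rcases lt_abs.1 hcon with h6 | h6
            · omega
            · omega
        have h7 : 0 ≤ |a| * (L : ℤ) := by positivity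
        have h8 : 3 * |a| * (L : ℤ) = 3 * (|a| * L) := by ring
        have d2 : |s * (a * (p - h) + b₀) - s * (a * p + b₀)| ≤ |a| * L := by
          have e : s * (a * (p - h) + b₀) - s * (a * p + b₀) = s * (a * (-h)) := by ring
          rw [e, abs_mul, hsabs, one_mul, abs_mul, abs_neg]
          apply mul_le_mul_of_nonneg_left _ (abs_nonneg a)
          rw [abs_le]; constructor <;> omega
        have d2' := abs_le.1 d2
        unfold Fs
        rw [if_neg (by omega), if_neg (by omega)]
      · left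
        omega
    have h3 : ((Icc (1 : ℤ) N).filter (fun p => |a * p + b₀| ≤ 3 * |a| * L)).card ≤ 6 * L + 1 := by
      rcases (((Icc (1 : ℤ) N).filter (fun p => |a * p + b₀| ≤ 3 * |a| * L))).eq_empty_or_nonempty with h4 | h4
      · rw [h4]; simp
      · obtain ⟨p0, hp0⟩ := h4
        rw [mem_filter] at hp0
        have h5 : (Icc (1 : ℤ) N).filter (fun p => |a * p + b₀| ≤ 3 * |a| * L) ⊆
            (Icc (1 : ℤ) N).filter (fun p => |a * p + b₀| ≤ 3 * |a| * L) := Subset.refl _
        set P0 := (Icc (1 : ℤ) N).filter (fun p => |a * p + b₀| ≤ 3 * |a| * L) with hP0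
        have hne : P0.Nonempty := ⟨p0, by rw [hP0, mem_filter]; exact hp0⟩
        set pm := P0.min' hne with hpm
        have hpmm := P0.min'_mem hne
        rw [← hpm, hP0, mem_filter] at hpmm
        have h6 : P0 ⊆ Icc pm (pm + 6 * L) := by
          intro p hp
          have h7 := P0.min'_le p hp
          rw [hP0, mem_filter] at hp
          rw [mem_Icc]
          refine ⟨h7, ?_⟩
          have h8 : |a| * (p - pm) ≤ |a| * (6 * L) := by
            have e : |a| * (p - pm) = |(a * p + b₀) - (a * pm + b₀)| := by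
              rw [show (a * p + b₀) - (a * pm + b₀) = a * (p - pm) by ring, abs_mul,
                abs_of_nonneg (by omega : 0 ≤ p - pm)]
            rw [e]
            refine (abs_sub _ _).trans ?_
            have := hp.2
            have := hpmm.2
            linarith
          have h9 := le_of_mul_le_mul_left h8 (by omega)
          omega
        refine (card_le_card h6).trans ?_
        rw [Int.card_Icc]; omega
    calc ∑ p ∈ B.filter (fun p => ¬ (2 * (L : ℤ) < p ∧ 3 * |a| * L < s * (a * p + b₀))), pv p ≤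
          ∑ p ∈ B.filter (fun p => ¬ (2 * (L : ℤ) < p ∧ 3 * |a| * L < s * (a * p + b₀))), (1 : ℝ) :=
          sum_le_sum fun _ _ => (pv_mem _).2
      _ = ((B.filter (fun p => ¬ (2 * (L : ℤ) < p ∧ 3 * |a| * L < s * (a * p + b₀)))).card : ℝ) := by
          rw [sum_const, nsmul_eq_mul, mul_one]
      _ ≤ 10 * L := by
          have h4 := (card_le_card h2).trans (card_union_le _ _)
          rw [Int.card_Icc] at h4
          exact_mod_cast (by omega : (B.filter (fun p => ¬ (2 * (L : ℤ) < p ∧ 3 * |a| * L < s * (a * p + b₀)))).card ≤ 10 * L)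
  rw [← sum_filter_add_sum_filter_not B (fun p => 2 * (L : ℤ) < p ∧ 3 * |a| * L < s * (a * p + b₀))]
  have h4 : (10 * (L : ℝ)) * ℓ ≤ 10 * (ε / 20 * N) := by
    have h5 : (L : ℝ) * ℓ ≤ ε / 20 * N :=
      hL2.trans (mul_le_mul_of_nonneg_right ((min_le_right _ _).trans (min_le_left _ _)) hN0.le)
    linarith
  have h5 : (∑ p ∈ B.filter (fun p => ¬ (2 * (L : ℤ) < p ∧ 3 * |a| * L < s * (a * p + b₀))), pv p) * ℓ ≤
      (10 * (L : ℝ)) * ℓ := mul_le_mul_of_nonneg_right hrest (by linarith)
  rw [add_mul]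
  linarith

end Pool.Agent.TH204.CP
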