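import Mathlib
import Pool.Agent.TH204.CP.Pairs

/-! Linear forms in two primes from arbitrary sets, part 2. -/

set_option autoImplicit false

namespace Pool.Agent.TH204.CP
open Finset Filter Topology Pool.Agent.W301.SS

/-- number of elements of `B` in `(n, n + L]` -/
noncomputable def cB (B : Finset ℤ) (L : ℕ) (n : ℤ) : ℝ :=
  ∑ h ∈ Ioc 0 L, (if n + (h : ℤ) ∈ B then (1 : ℝ) else 0)

/-- normalised number of elements of `B` in `(n, n + L]`, zero for the crowded intervals -/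
noncomputable def gB (B : Finset ℤ) (N L : ℕ) (n : ℤ) : ℝ :=
  if (1 ≤ n ∧ n ≤ N) ∧ ¬ 5 * (L : ℝ) < pn n.toNat L * Real.log N then cB B L n / L * (Real.log N / 5) else 0

lemma cB_nonneg (B : Finset ℤ) (L : ℕ) (n : ℤ) : 0 ≤ cB B L n :=
  sum_nonneg fun _ _ => by split_ifs <;> norm_num

lemma cB_le {B : Finset ℤ} (hB : ∀ p ∈ B, p.toNat.Prime) (L : ℕ) (n : ℕ) : cB B L n ≤ pn n L := by
  rw [pn_pv]
  apply sum_le_sum
  intro h _
  unfold pv
  split_ifs with h1 h2 h2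
  · norm_num
  · exact absurd (hB _ h1) h2
  · norm_num
  · norm_num

lemma gB_mem {B : Finset ℤ} (hB : ∀ p ∈ B, p.toNat.Prime) {N L : ℕ} (hL : 1 ≤ L) (n : ℤ) :
    0 ≤ gB B N L n ∧ gB B N L n ≤ 1 := by
  unfold gB
  have h0 := cB_nonneg B L n
  have hlog := Real.log_natCast_nonneg N
  have hLr : (0 : ℝ) < L := by exact_mod_cast (by omega : 0 < L)
  split_ifs with h
  · refine ⟨by positivity, ?_⟩
    obtain ⟨⟨h1, h2⟩, h3⟩ := h
    push Not at h3
    have h4 := cB_le hB L n.toNat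
    rw [Int.toNat_of_nonneg (by omega)] at h4
    have h5 : cB B L n * Real.log N ≤ 5 * L := (mul_le_mul_of_nonneg_right h4 hlog).trans h3
    rw [div_mul_div_comm, div_le_one (by positivity)]
    linarith
  · exact ⟨le_rfl, zero_le_one⟩

lemma shift_sum {B : Finset ℤ} {N : ℕ} (hB : B ⊆ Icc (1 : ℤ) N) (G : ℤ → ℝ) (h : ℕ) (hh : 1 ≤ h) :
    ∑ n ∈ Icc 1 N, (if ((n : ℕ) : ℤ) + (h : ℤ) ∈ B then (1 : ℝ) else 0) * G (n : ℕ) =
      ∑ p ∈ B, (if (h : ℤ) + 1 ≤ p then G (p - h) else 0) := by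
  rw [← sum_filter]
  have e : ∑ n ∈ Icc 1 N, (if ((n : ℕ) : ℤ) + (h : ℤ) ∈ B then (1 : ℝ) else 0) * G (n : ℕ) =
      ∑ n ∈ (Icc 1 N).filter (fun n : ℕ => ((n : ℕ) : ℤ) + (h : ℤ) ∈ B), G (n : ℕ) := by
    rw [sum_filter]
    apply sum_congr rfl
    intro n _
    split_ifs <;> ring
  rw [e]
  refine sum_nbij' (fun n : ℕ => ((n : ℕ) : ℤ) + h) (fun p : ℤ => (p - h).toNat) ?_ ?_ ?_ ?_ ?_
  · intro n hn
    rw [mem_filter, mem_Icc] at hn
    rw [mem_filter]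
    exact ⟨hn.2, by omega⟩
  · intro p hp
    rw [mem_filter] at hp
    have h1 := hB hp.1
    rw [mem_Icc] at h1
    rw [mem_filter, mem_Icc]
    refine ⟨by omega, ?_⟩
    rw [Int.toNat_of_nonneg (by omega), sub_add_cancel]
    exact hp.1
  · intro n _
    simp
  · intro p hp
    rw [mem_filter] at hp
    rw [Int.toNat_of_nonneg (by omega)]
    ring
  · intro n _
    rw [add_sub_cancel_right]

/-- replacing a sum over `B` by a sum over all integers -/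
lemma avg {B : Finset ℤ} {N : ℕ} (hB : B ⊆ Icc (1 : ℤ) N) (hBp : ∀ p ∈ B, p.toNat.Prime) {s : ℤ} {f : ℤ → ℝ}
    (hf : ∀ x, |f x| ≤ 1) (L : ℕ) (a b₀ : ℤ) :
    |L * ∑ p ∈ B, Fs s f (a * p + b₀) - ∑ n ∈ Icc 1 N, cB B L (n : ℕ) * Fs s f (a * (n : ℕ) + b₀)| ≤
      2 * L * (∑ p ∈ BP s a b₀ f N L, pv p + L) := by
  classical
  set G : ℤ → ℝ := fun z => Fs s f (a * z + b₀) with hG
  have hGabs : ∀ z, |G z| ≤ 1 := fun z => Fs_abs hf _
  have e1 : ∑ n ∈ Icc 1 N, cB B L (n : ℕ) * Fs s f (a * (n : ℕ) + b₀) =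
      ∑ p ∈ B, ∑ h ∈ Ioc 0 L, (if ((h : ℕ) : ℤ) + 1 ≤ p then G (p - h) else 0) := by
    have e0 : ∀ n ∈ Icc 1 N, cB B L (n : ℕ) * Fs s f (a * (n : ℕ) + b₀) =
        ∑ h ∈ Ioc 0 L, (if ((n : ℕ) : ℤ) + (h : ℤ) ∈ B then (1 : ℝ) else 0) * G (n : ℕ) := by
      intro n _
      unfold cB
      rw [Finset.sum_mul]
    rw [sum_congr rfl e0, sum_comm, sum_comm (s := B)]
    apply sum_congr rfl
    intro h hh
    rw [mem_Ioc] at hh
    exact shift_sum hB G h (by omega)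
  have e2 : L * ∑ p ∈ B, Fs s f (a * p + b₀) = ∑ p ∈ B, ∑ h ∈ Ioc 0 L, G p := by
    rw [mul_sum]
    apply sum_congr rfl
    intro p _
    rw [sum_const, Nat.card_Ioc, nsmul_eq_mul, Nat.sub_zero]
  rw [e1, e2, ← sum_sub_distrib]
  refine (abs_sum_le_sum_abs _ _).trans ?_
  have e3 : ∀ p ∈ B, |∑ h ∈ Ioc 0 L, G p - ∑ h ∈ Ioc 0 L, (if ((h : ℕ) : ℤ) + 1 ≤ p then G (p - h) else 0)| ≤
      if (p ∈ BP s a b₀ f N L ∨ p ≤ L) then 2 * (L : ℝ) else 0 := by
    intro p hp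
    have h1 := hB hp
    rw [← sum_sub_distrib]
    split_ifs with hc
    · refine (abs_sum_le_sum_abs _ _).trans ?_
      have h2 : ∀ h ∈ Ioc 0 L, |G p - (if ((h : ℕ) : ℤ) + 1 ≤ p then G (p - h) else 0)| ≤ 2 := by
        intro h _
        refine (abs_sub _ _).trans ?_
        have h3 := hGabs p
        have h4 : |(if ((h : ℕ) : ℤ) + 1 ≤ p then G (p - h) else 0)| ≤ 1 := by
          split_ifs
          · exact hGabs _
          · simp
        linarith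
      refine (sum_le_sum h2).trans ?_
      rw [sum_const, Nat.card_Ioc, nsmul_eq_mul, Nat.sub_zero]
      linarith
    · push Not at hc
      obtain ⟨c1, c2⟩ := hc
      rw [sum_eq_zero]
      · simp
      · intro h hh
        rw [mem_Ioc] at hh
        rw [if_pos (by omega)]
        by_contra hne
        apply c1
        unfold BP
        rw [mem_filter]
        refine ⟨h1, h, ?_, ?_⟩
        · rw [mem_Icc]; omega
        · intro heq
          apply hne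
          rw [hG]
          simp only
          rw [heq, sub_self]
  refine (sum_le_sum e3).trans ?_
  rw [← sum_filter, sum_const, nsmul_eq_mul, mul_comm]
  apply mul_le_mul_of_nonneg_left _ (by positivity)
  have h4 : B.filter (fun p => p ∈ BP s a b₀ f N L ∨ p ≤ L) ⊆
      (BP s a b₀ f N L).filter (fun p => p.toNat.Prime) ∪ Icc (1 : ℤ) L := by
    intro p hp
    rw [mem_filter] at hp
    rw [mem_union, mem_filter, mem_Icc]
    have h1 := hB hp.1
    rw [mem_Icc] at h1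
    rcases hp.2 with h5 | h5
    · exact Or.inl ⟨h5, hBp _ hp.1⟩
    · exact Or.inr ⟨h1.1, h5⟩
  have h5 := (card_le_card h4).trans (card_union_le _ _)
  rw [Int.card_Icc] at h5
  have h6 : (((BP s a b₀ f N L).filter (fun p => p.toNat.Prime)).card : ℝ) = ∑ p ∈ BP s a b₀ f N L, pv p := by
    rw [card_filter]
    push_cast
    rfl
  rw [← h6]
  exact_mod_cast (by omega : (B.filter (fun p => p ∈ BP s a b₀ f N L ∨ p ≤ L)).card ≤
    ((BP s a b₀ f N L).filter (fun p => p.toNat.Prime)).card + L)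

/-- the same with the normalised weight -/
lemma avg2 {ε₁ : ℝ} {B : Finset ℤ} {N L : ℕ} (hL : 1 ≤ L) (hB : B ⊆ Icc (1 : ℤ) N)
    (hBp : ∀ p ∈ B, p.toNat.Prime) {s : ℤ} {f : ℤ → ℝ}
    (hf : ∀ x, |f x| ≤ 1) (a b₀ : ℤ)
    (h1 : (∑ p ∈ BP s a b₀ f N L, pv p) * Real.log N ≤ ε₁ * N) (h2 : (L : ℝ) * Real.log N ≤ ε₁ * N)
    (h3 : (∑ n ∈ (Icc 1 N).filter (fun n => 5 * (L : ℝ) < pn n L * Real.log N), (pn n L : ℝ)) * Real.log N ≤
      ε₁ * N * L) :
    |(∑ p ∈ B, Fs s f (a * p + b₀)) * Real.log N - 5 * ∑ n ∈ Icc 1 N, gB B N L (n : ℕ) * Fs s f (a * (n : ℕ) + b₀)| ≤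
      5 * ε₁ * N := by
  have hLr : (0 : ℝ) < L := by exact_mod_cast (by omega : 0 < L)
  have hlog := Real.log_natCast_nonneg N
  set ℓ := Real.log (N : ℝ) with hℓ
  have g0 := avg hB hBp (s := s) hf L a b₀
  set X := ∑ p ∈ B, Fs s f (a * p + b₀) with hX
  set Y := ∑ n ∈ Icc 1 N, cB B L (n : ℕ) * Fs s f (a * (n : ℕ) + b₀) with hY
  set Z := ∑ n ∈ (Icc 1 N).filter (fun n => 5 * (L : ℝ) < pn n L * ℓ), cB B L (n : ℕ) * Fs s f (a * (n : ℕ) + b₀) with hZ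
  have e1 : 5 * ∑ n ∈ Icc 1 N, gB B N L (n : ℕ) * Fs s f (a * (n : ℕ) + b₀) = ℓ / L * (Y - Z) := by
    rw [hY, ← sum_filter_add_sum_filter_not (Icc 1 N) (fun n => 5 * (L : ℝ) < pn n L * ℓ)
      (fun n => cB B L (n : ℕ) * Fs s f (a * (n : ℕ) + b₀)), ← hZ, add_sub_cancel_left, mul_sum, mul_sum,
      sum_filter]
    apply sum_congr rfl
    intro n hn
    rw [mem_Icc] at hn
    unfold gB
    rw [Int.toNat_natCast]
    by_cases hc : 5 * (L : ℝ) < pn n L * ℓ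
    · rw [if_neg (by rintro ⟨_, h⟩; exact h hc), if_neg (by intro h; exact h hc)]
      ring
    · rw [if_pos ⟨⟨by omega, by omega⟩, hc⟩, if_pos hc]
      ring
  have hZ1 : |Z| ≤ ∑ n ∈ (Icc 1 N).filter (fun n => 5 * (L : ℝ) < pn n L * ℓ), (pn n L : ℝ) := by
    refine (abs_sum_le_sum_abs _ _).trans (sum_le_sum fun n _ => ?_)
    rw [abs_mul, abs_of_nonneg (cB_nonneg _ _ _)]
    calc cB B L (n : ℕ) * |Fs s f (a * (n : ℕ) + b₀)| ≤ cB B L (n : ℕ) * 1 :=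
          mul_le_mul_of_nonneg_left (Fs_abs hf _) (cB_nonneg _ _ _)
      _ ≤ pn n L := by rw [mul_one]; exact cB_le hBp L n
  have hZ2 : |Z| * ℓ ≤ ε₁ * N * L := (mul_le_mul_of_nonneg_right hZ1 hlog).trans h3
  have hXY : |L * X - Y| * ℓ ≤ 4 * ε₁ * N * L := by
    calc |L * X - Y| * ℓ ≤ (2 * L * (∑ p ∈ BP s a b₀ f N L, pv p + L)) * ℓ :=
          mul_le_mul_of_nonneg_right g0 hlog
      _ = 2 * L * ((∑ p ∈ BP s a b₀ f N L, pv p) * ℓ + L * ℓ) := by ring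
      _ ≤ 2 * L * (ε₁ * N + ε₁ * N) := by
          apply mul_le_mul_of_nonneg_left _ (by positivity)
          linarith
      _ = _ := by ring
  have e2 : X * ℓ - ℓ / L * (Y - Z) = (ℓ * (L * X - Y) + ℓ * Z) / L := by
    field_simp
    ring
  rw [e1, e2, abs_div, abs_of_pos hLr, div_le_iff₀ hLr]
  refine (abs_add_le _ _).trans ?_
  rw [abs_mul, abs_mul, abs_of_nonneg hlog]
  nlinarith

end Pool.Agent.TH204.CP
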