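import Mathlib
import Pool.Agent.TH204.CP.Pairs2

/-! Linear forms in two primes from arbitrary sets, part 3. -/

set_option autoImplicit false

namespace Pool.Agent.TH204.CP
open Finset Filter Topology Pool.Agent.W301.SS Pool.Agent.H499R2.CO Pool.Agent.W41.FU

lemma ev_powR (k : ℕ) (c : ℝ) : ∀ᶠ N : ℕ in atTop, c * Real.log N ^ k ≤ N := by
  filter_upwards [tendsto_natCast_atTop_atTop.eventually (ev_sqrt k c), eventually_ge_atTop 1] with N h1 h2
  have hN : (1 : ℝ) ≤ N := by exact_mod_cast h2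
  refine h1.trans ?_
  rw [Real.sqrt_le_left (by linarith)]
  nlinarith

/-- the trilinear form -/
lemma main_TT {s : ℤ} (hs : s = 1 ∨ s = -1) {a b c : ℤ} {N N' : ℕ} (hNN : N ≤ N')
    (hbd : (|a| + |b|) * N + |c| ≤ N') {g g' f : ℤ → ℝ}
    (hg : ∀ x : ℤ, (N : ℤ) < x → g x = 0) (hg' : ∀ x : ℤ, (N : ℤ) < x → g' x = 0) :
    ∑ n ∈ Icc 1 N, ∑ m ∈ Icc 1 N, g (n : ℕ) * (g' (m : ℕ) * Fs s f (a * (n : ℕ) + (b * (m : ℕ) + c))) =
      Pool.Agent.W41.FU.TT g g' f N' a b (-s) (-c) := by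
  have hss : s * s = 1 := by rcases hs with rfl | rfl <;> norm_num
  have hsabs : |s| = 1 := by rcases hs with rfl | rfl <;> norm_num
  unfold Pool.Agent.W41.FU.TT
  have hsub : Icc 1 N ⊆ Icc 1 N' := Icc_subset_Icc_right hNN
  rw [← sum_subset hsub (f := fun x => ∑ y ∈ Icc 1 N', ∑ z ∈ Icc 1 N',
    (if a * (x : ℕ) + b * (y : ℕ) + -s * (z : ℕ) = -c then g (x : ℕ) * g' (y : ℕ) * f (z : ℕ) else 0))]
  · apply sum_congr rfl
    intro n hn
    rw [mem_Icc] at hn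
    rw [← sum_subset hsub (f := fun y => ∑ z ∈ Icc 1 N',
      (if a * (n : ℕ) + b * (y : ℕ) + -s * (z : ℕ) = -c then g (n : ℕ) * g' (y : ℕ) * f (z : ℕ) else 0))]
    · apply sum_congr rfl
      intro m hm
      rw [mem_Icc] at hm
      set z := a * (n : ℤ) + (b * (m : ℤ) + c) with hz
      have hzN : |z| ≤ N' := by
        have h1 : |a * (n : ℤ)| ≤ |a| * N := by
          rw [abs_mul, Nat.abs_cast]
          exact mul_le_mul_of_nonneg_left (by exact_mod_cast hn.2) (abs_nonneg _)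
        have h2 : |b * (m : ℤ)| ≤ |b| * N := by
          rw [abs_mul, Nat.abs_cast]
          exact mul_le_mul_of_nonneg_left (by exact_mod_cast hm.2) (abs_nonneg _)
        have h3 := abs_add_le (a * (n : ℤ)) (b * (m : ℤ) + c)
        have h4 := abs_add_le (b * (m : ℤ)) c
        have h5 : (|a| + |b|) * (N : ℤ) = |a| * N + |b| * N := by ring
        linarith
      have hiff : ∀ x : ℕ, (a * (n : ℤ) + b * (m : ℤ) + -s * (x : ℤ) = -c ↔ (x : ℤ) = s * z) := by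
        intro x
        constructor
        · intro h
          have : s * (x : ℤ) = z := by rw [hz]; linarith
          rw [← this, ← mul_assoc, hss, one_mul]
        · intro h
          rw [h, hz]
          have : -s * (s * (a * (n : ℤ) + (b * (m : ℤ) + c))) = -(s * s) * (a * (n : ℤ) + (b * (m : ℤ) + c)) := by ring
          rw [this, hss]; ring
      simp only [hiff]
      unfold Fs
      by_cases h1 : 1 ≤ s * z
      · rw [if_pos h1]
        have hszN : s * z ≤ N' := by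
          have := le_abs_self (s * z)
          rw [abs_mul, hsabs, one_mul] at this
          linarith
        rw [sum_eq_single_of_mem (s * z).toNat (by rw [mem_Icc]; omega)]
        · rw [Int.toNat_of_nonneg (by omega), if_pos rfl]; ring
        · intro x _ hx
          rw [if_neg]
          intro h
          apply hx
          omega
      · rw [if_neg h1, mul_zero, mul_zero]
        symm
        apply sum_eq_zero
        intro x hx
        rw [mem_Icc] at hx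
        rw [if_neg]
        intro h
        omega
    · intro y hy hyN
      rw [mem_Icc] at hy hyN
      apply sum_eq_zero
      intro x _
      rw [hg' y (by omega)]
      simp
  · intro y hy hyN
    rw [mem_Icc] at hy hyN
    apply sum_eq_zero
    intro x _
    apply sum_eq_zero
    intro z _
    rw [hg y (by omega)]
    simp

lemma gB_zero {B : Finset ℤ} {N L : ℕ} {x : ℤ} (hx : (N : ℤ) < x) : gB B N L x = 0 := by
  unfold gB
  rw [if_neg]
  rintro ⟨⟨_, h⟩, _⟩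
  omega

lemma card_primes {B : Finset ℤ} {N : ℕ} (hB : B ⊆ Icc (1 : ℤ) N) (hBp : ∀ p ∈ B, p.toNat.Prime) :
    B.card ≤ Nat.primeCounting N := by
  rw [Nat.primeCounting, Nat.primeCounting', Nat.count_eq_card_filter_range]
  apply card_le_card_of_injOn (fun p => p.toNat)
  · intro p hp
    have h1 := hB hp
    rw [mem_Icc] at h1
    rw [mem_coe, mem_filter, mem_range]
    exact ⟨by simp only; omega, hBp p hp⟩
  · intro x hx y hy hxy
    have h1 := hB hx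
    have h2 := hB hy
    rw [mem_Icc] at h1 h2
    simp only at hxy
    omega

/-- LINEAR FORMS IN TWO PRIMES -/
theorem pairs {s : ℤ} (hs : s = 1 ∨ s = -1) {a b : ℤ} (ha : a ≠ 0) (hb : b ≠ 0) (ε : ℝ) (hε : 0 < ε) :
    ∀ᶠ N : ℕ in atTop, ∀ S : Set ℤ, (∀ x, x ∈ S ↔ Tz 1 x ∈ S) → ∀ δ : ℝ, Pool.Agent.H499R2.ND.HD s S δ →
      ∀ B B' : Finset ℤ, B ⊆ Icc (1 : ℤ) N → B' ⊆ Icc (1 : ℤ) N → (∀ p ∈ B, p.toNat.Prime) →
      (∀ p ∈ B', p.toNat.Prime) → ∀ c : ℤ, |c| ≤ N →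
      |∑ p ∈ B, ∑ q ∈ B', Fs s (bal s S δ) (a * p + (b * q + c))| * Real.log N ^ 2 ≤ ε * N ^ 2 := by
  classical
  set ε₁ : ℝ := ε / 100 with hε₁
  have hε₁0 : 0 < ε₁ := by positivity
  obtain ⟨η, hη0, hη⟩ := badlin ε₁ hε₁0
  set W : ℕ := 2 * (a.natAbs + b.natAbs) + 1 with hW
  have hW1 : 1 ≤ W := by omega
  have hWr : (1 : ℝ) ≤ W := by exact_mod_cast hW1
  have haW : 2 * |a| + 2 * |b| + 1 = (W : ℤ) := by
    rw [hW]; push_cast; ring
  have ha0 := abs_nonneg a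
  have hb0 := abs_nonneg b
  set ε₂ : ℝ := min 1 (ε / (50 * W ^ 2)) with hε₂
  have hε₂0 : 0 < ε₂ := lt_min one_pos (by positivity)
  obtain ⟨N0, _, hF⟩ := fourier_inv hs hε₂0 (min_le_left _ _)
  have ht : Tendsto (fun N : ℕ => W * N) atTop atTop :=
    tendsto_id.const_mul_atTop' (by omega)
  filter_upwards [hη, crowded ε₁ hε₁0, ht.eventually (data hs (η / W) (by positivity) 22),
    ev_L (2 * W), ev_powR 22 (2 / η), ev_powR 22 (2 / ε₁), pi_unif 1 one_pos, eventually_ge_atTop N0,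
    eventually_ge_atTop 1] with N h1 h2 h3 h4 h5 h6 hpi hN0 hN1 S hS δ hδ B B' hB hB' hBp hBp' c hc
  obtain ⟨d0, d1⟩ := dens_mem hs hδ
  obtain ⟨E, L', hE, hL1', hL2', hloc, -⟩ := h3
  have hNr : (1 : ℝ) ≤ N := by exact_mod_cast hN1
  set ℓ := Real.log (N : ℝ) with hℓ
  have hℓW : (2 : ℝ) * W ≤ ℓ := h4
  have hℓ1 : (1 : ℝ) ≤ ℓ := by linarith
  have hℓ0 : (0 : ℝ) ≤ ℓ := by linarith
  set f := bal s S δ with hf
  have hfabs : ∀ x, |f x| ≤ 1 := bal_abs d0 d1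
  set L : ℕ := ⌈ℓ ^ 21⌉₊ with hL
  have hL1 : ℓ ^ 21 ≤ L := Nat.le_ceil _
  have hp21 : (1 : ℝ) ≤ ℓ ^ 21 := one_le_pow₀ hℓ1
  have hL2 : (L : ℝ) ≤ 2 * ℓ ^ 21 := by
    have := (Nat.ceil_lt_add_one (by positivity : (0 : ℝ) ≤ ℓ ^ 21)).le
    rw [← hL] at this
    linarith
  have hLn : 1 ≤ L := by
    have : (1 : ℝ) ≤ L := hp21.trans hL1
    exact_mod_cast this
  have hL20 : ℓ ^ 20 ≤ L := (pow_le_pow_right₀ hℓ1 (by norm_num)).trans hL1
  have hLℓ : (L : ℝ) * ℓ ≤ 2 * ℓ ^ 22 := by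
    calc (L : ℝ) * ℓ ≤ 2 * ℓ ^ 21 * ℓ := mul_le_mul_of_nonneg_right hL2 hℓ0
      _ = _ := by ring
  have hLη : (L : ℝ) * ℓ ≤ η * N := by
    refine hLℓ.trans ?_
    have := mul_le_mul_of_nonneg_left h5 hη0.le
    calc 2 * ℓ ^ 22 = η * (2 / η * ℓ ^ 22) := by field_simp
      _ ≤ _ := this
  have hLε : (L : ℝ) * ℓ ≤ ε₁ * N := by
    refine hLℓ.trans ?_
    have := mul_le_mul_of_nonneg_left h6 hε₁0.le
    calc 2 * ℓ ^ 22 = ε₁ * (2 / ε₁ * ℓ ^ 22) := by field_simp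
      _ ≤ _ := this
  have hWL : (W : ℝ) * L ≤ L' := by
    have e1 : ℓ ≤ Real.log ((W * N : ℕ) : ℝ) := by
      apply Real.log_le_log (by linarith)
      push_cast
      nlinarith
    calc (W : ℝ) * L ≤ W * (2 * ℓ ^ 21) := mul_le_mul_of_nonneg_left hL2 (by positivity)
      _ = (2 * W) * ℓ ^ 21 := by ring
      _ ≤ ℓ * ℓ ^ 21 := mul_le_mul_of_nonneg_right hℓW (by positivity)
      _ = ℓ ^ 22 := by ring
      _ ≤ Real.log ((W * N : ℕ) : ℝ) ^ 22 := pow_le_pow_left₀ hℓ0 e1 22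
      _ ≤ L' := hL1'
  have hWL' : (W : ℤ) * L ≤ L' := by exact_mod_cast hWL
  have hEN : (E.card : ℝ) ≤ η * N := by
    refine hE.trans (le_of_eq ?_)
    push_cast
    field_simp
  have hLoc : Loc2 f E (W * N) L' := by
    intro n hn hnE h hh
    have h7 := hloc S hS n (by push_cast at hn ⊢; exact hn) hnE h hh
    rw [hf]
    unfold bal Pool.Agent.W41.ind
    unfold PS at h7
    by_cases h8 : s * n ∈ S
    · rw [if_pos h8, if_pos (h7.2 h8)]
    · rw [if_neg h8, if_neg (fun h9 => h8 (h7.1 h9))]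
  have hwL : ∀ w : ℤ, |w| ≤ |a| + |b| → |w| * L ≤ L' := by
    intro w hw
    refine le_trans ?_ hWL'
    apply mul_le_mul_of_nonneg_right _ (Int.natCast_nonneg _)
    linarith
  have hWN : ((W * N : ℕ) : ℤ) = 2 * |a| * N + 2 * |b| * N + N := by
    push_cast
    rw [← haW]; ring
  -- first variable
  have hbadA : ∀ b₀ : ℤ, |b₀| ≤ |b| * N + N →
      |(∑ p ∈ B, Fs s f (a * p + b₀)) * ℓ - 5 * ∑ n ∈ Icc 1 N, gB B N L (n : ℕ) * Fs s f (a * (n : ℕ) + b₀)| ≤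
      5 * ε₁ * N := by
    intro b₀ hb₀
    refine avg2 hLn hB hBp hfabs a b₀ ?_ hLε (h2 L hL20)
    refine h1 L hL1 hLη s a b₀ hs ha f E (W * N) L' hEN hLoc (hwL a (by linarith)) ?_
    rw [hWN]
    have : 0 ≤ |b| * (N : ℤ) := by positivity
    linarith
  have hbadB : ∀ b₀ : ℤ, |b₀| ≤ |a| * N + N →
      |(∑ p ∈ B', Fs s f (b * p + b₀)) * ℓ - 5 * ∑ n ∈ Icc 1 N, gB B' N L (n : ℕ) * Fs s f (b * (n : ℕ) + b₀)| ≤
      5 * ε₁ * N := by
    intro b₀ hb₀
    refine avg2 hLn hB' hBp' hfabs b b₀ ?_ hLε (h2 L hL20)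
    refine h1 L hL1 hLη s b b₀ hs hb f E (W * N) L' hEN hLoc (hwL b (by linarith)) ?_
    rw [hWN]
    have : 0 ≤ |a| * (N : ℤ) := by positivity
    linarith
  have habs1 : ∀ (w z : ℤ), 1 ≤ z → z ≤ N → |w * z + c| ≤ |w| * N + N := by
    intro w z hz1 hz2
    refine (abs_add_le _ _).trans ?_
    rw [abs_mul, abs_of_nonneg (by omega : 0 ≤ z)]
    have := mul_le_mul_of_nonneg_left hz2 (abs_nonneg w)
    linarith
  have hcard : (B'.card : ℝ) * ℓ ≤ 2 * N := by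
    have h7 : (B'.card : ℝ) ≤ Nat.primeCounting N := by exact_mod_cast card_primes hB' hBp'
    have h8 := (abs_le.1 (hpi N (by omega))).2
    have h9 := mul_le_mul_of_nonneg_right h7 hℓ0
    linarith
  -- step 1
  set T := ∑ p ∈ B, ∑ q ∈ B', Fs s f (a * p + (b * q + c)) with hT
  set T1 := ∑ q ∈ B', ∑ n ∈ Icc 1 N, gB B N L (n : ℕ) * Fs s f (a * (n : ℕ) + (b * q + c)) with hT1
  have s1 : |T * ℓ - 5 * T1| * ℓ ≤ 10 * ε₁ * N ^ 2 := by
    have e1 : T * ℓ - 5 * T1 = ∑ q ∈ B', ((∑ p ∈ B, Fs s f (a * p + (b * q + c))) * ℓ -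
        5 * ∑ n ∈ Icc 1 N, gB B N L (n : ℕ) * Fs s f (a * (n : ℕ) + (b * q + c))) := by
      rw [hT, hT1, sum_comm, sum_sub_distrib, Finset.sum_mul, mul_sum]
    rw [e1]
    have e2 : |∑ q ∈ B', ((∑ p ∈ B, Fs s f (a * p + (b * q + c))) * ℓ -
        5 * ∑ n ∈ Icc 1 N, gB B N L (n : ℕ) * Fs s f (a * (n : ℕ) + (b * q + c)))| ≤ B'.card * (5 * ε₁ * N) := by
      refine (abs_sum_le_sum_abs _ _).trans ?_
      rw [← nsmul_eq_mul, ← sum_const]
      apply sum_le_sum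
      intro q hq
      have h7 := hB' hq
      rw [mem_Icc] at h7
      exact hbadA _ (habs1 b q h7.1 h7.2)
    calc _ ≤ (B'.card * (5 * ε₁ * N)) * ℓ := mul_le_mul_of_nonneg_right e2 hℓ0
      _ = (5 * ε₁ * N) * (B'.card * ℓ) := by ring
      _ ≤ (5 * ε₁ * N) * (2 * N) := mul_le_mul_of_nonneg_left hcard (by positivity)
      _ = _ := by ring
  -- step 2
  set T2 := ∑ n ∈ Icc 1 N, ∑ m ∈ Icc 1 N, gB B N L (n : ℕ) * (gB B' N L (m : ℕ) *
    Fs s f (a * (n : ℕ) + (b * (m : ℕ) + c))) with hT2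
  have s2 : |T1 * ℓ - 5 * T2| ≤ 5 * ε₁ * N ^ 2 := by
    have e1 : T1 * ℓ - 5 * T2 = ∑ n ∈ Icc 1 N, gB B N L (n : ℕ) * ((∑ q ∈ B', Fs s f (b * q + (a * (n : ℕ) + c))) * ℓ -
        5 * ∑ m ∈ Icc 1 N, gB B' N L (m : ℕ) * Fs s f (b * (m : ℕ) + (a * (n : ℕ) + c))) := by
      rw [hT1, hT2, sum_comm, Finset.sum_mul, mul_sum, ← sum_sub_distrib]
      apply sum_congr rfl
      intro n _
      rw [mul_sub]
      congr 1
      · rw [← mul_sum, mul_assoc]
        congr 2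
        apply sum_congr rfl
        intro q _
        congr 1
        ring
      · rw [mul_left_comm]
        congr 1
        rw [mul_sum]
        apply sum_congr rfl
        intro m _
        congr 3
        ring
    rw [e1]
    refine (abs_sum_le_sum_abs _ _).trans ?_
    have e2 : ∀ n ∈ Icc 1 N, |gB B N L (n : ℕ) * ((∑ q ∈ B', Fs s f (b * q + (a * (n : ℕ) + c))) * ℓ -
        5 * ∑ m ∈ Icc 1 N, gB B' N L (m : ℕ) * Fs s f (b * (m : ℕ) + (a * (n : ℕ) + c)))| ≤ 5 * ε₁ * N := by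
      intro n hn
      rw [mem_Icc] at hn
      obtain ⟨g0, g1⟩ := gB_mem hBp (N := N) hLn (n : ℤ)
      rw [abs_mul, abs_of_nonneg g0]
      have h7 := hbadB _ (habs1 a n (by omega) (by omega))
      calc _ ≤ 1 * (5 * ε₁ * N) := mul_le_mul g1 h7 (abs_nonneg _) zero_le_one
        _ = _ := by ring
    refine (sum_le_sum e2).trans ?_
    rw [sum_const, Nat.card_Icc, nsmul_eq_mul, Nat.add_sub_cancel]
    apply le_of_eq
    ring
  -- step 3
  have s3 : |T2| ≤ ε / 50 * N ^ 2 := by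
    have hNW : N ≤ W * N := Nat.le_mul_of_pos_left N (by omega)
    rw [hT2, main_TT hs (N' := W * N) hNW ?_ (fun x hx => gB_zero hx) (fun x hx => gB_zero hx)]
    · have hs0 : -s ≠ 0 := by rcases hs with rfl | rfl <;> norm_num
      refine (TT_bound ha hb hs0 (-c) (K := ε₂ * ((W * N : ℕ) : ℝ)) (N := W * N) ?_ ?_ hfabs
        (Or.inr (Or.inr ?_))).trans ?_
      · intro x
        obtain ⟨g0, g1⟩ := gB_mem hBp (N := N) hLn x
        rw [abs_of_nonneg g0]; exact g1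
      · intro x
        obtain ⟨g0, g1⟩ := gB_mem hBp' (N := N) hLn x
        rw [abs_of_nonneg g0]; exact g1
      · intro α
        exact hF S (invT hS) δ hδ (W * N) (hN0.trans hNW) α
      · push_cast
        have h7 : ε₂ ≤ ε / (50 * W ^ 2) := min_le_right _ _
        calc ε₂ * (W * N) * (W * N) = ε₂ * (W ^ 2 * N ^ 2) := by ring
          _ ≤ ε / (50 * W ^ 2) * (W ^ 2 * N ^ 2) := mul_le_mul_of_nonneg_right h7 (by positivity)
          _ = _ := by field_simp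
    · rw [hWN]
      have : (0 : ℤ) ≤ (|a| + |b|) * N := by positivity
      nlinarith
  -- the end
  have e1 : T * ℓ ^ 2 = (T * ℓ - 5 * T1) * ℓ + 5 * (T1 * ℓ - 5 * T2) + 25 * T2 := by ring
  have e2 : |T| * ℓ ^ 2 = |T * ℓ ^ 2| := by rw [abs_mul, abs_of_nonneg (by positivity : (0 : ℝ) ≤ ℓ ^ 2)]
  rw [e2, e1]
  have e3 := abs_add_three ((T * ℓ - 5 * T1) * ℓ) (5 * (T1 * ℓ - 5 * T2)) (25 * T2)
  rw [abs_mul, abs_of_nonneg hℓ0, abs_mul, abs_mul, abs_of_pos (by norm_num : (0 : ℝ) < 5),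
    abs_of_pos (by norm_num : (0 : ℝ) < 25)] at e3
  have hN2 : (0 : ℝ) ≤ (N : ℝ) ^ 2 := by positivity
  have e4 : 10 * ε₁ * (N : ℝ) ^ 2 + 5 * (5 * ε₁ * N ^ 2) + 25 * (ε / 50 * N ^ 2) ≤ ε * N ^ 2 := by
    rw [hε₁]
    nlinarith
  linarith

end Pool.Agent.TH204.CP
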