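import Mathlib
import Pool.Agent.TH204.CP.Ternary

/-! The sums `QD`, `QS`, `TT3` as numbers of elements of sets. -/

set_option autoImplicit false

namespace Pool.Agent.TH204.CP
open Finset

lemma ind_pv (P : ℤ → Prop) (x y : ℤ) [Decidable (P x ∧ y.toNat.Prime)] :
    ind P x * pv y = if P x ∧ y.toNat.Prime then (1 : ℝ) else 0 := by
  unfold ind pv
  by_cases h1 : P x
  · by_cases h2 : y.toNat.Prime
    · rw [if_pos h1, if_pos h2, if_pos ⟨h1, h2⟩]; norm_num
    · rw [if_pos h1, if_neg h2, if_neg (fun h : P x ∧ y.toNat.Prime => h2 h.2)]; norm_num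
  · rw [if_neg h1, if_neg (fun h : P x ∧ y.toNat.Prime => h1 h.1)]; norm_num

lemma QD_eq (P : ℤ → Prop) (b : ℤ) (N : ℕ) : QD P b N =
    ({p : ℕ | p.Prime ∧ b < p ∧ (p : ℤ) ≤ b + N ∧ P (p - b)}.ncard : ℝ) := by
  classical
  have h1 : QD P b N = (((Icc (1 : ℤ) N).filter (fun x => P x ∧ (x + b).toNat.Prime)).card : ℝ) := by
    unfold QD
    rw [card_filter]
    push_cast
    apply sum_congr rfl
    intro x _
    rw [ind_pv]
  rw [h1]
  have h2 : {p : ℕ | p.Prime ∧ b < p ∧ (p : ℤ) ≤ b + N ∧ P (p - b)} =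
      (((Icc (1 : ℤ) N).filter (fun x => P x ∧ (x + b).toNat.Prime)).image (fun x => (x + b).toNat) : Finset ℕ) := by
    ext p
    simp only [Set.mem_ofPred_eq, coe_image, coe_filter, Set.mem_image, mem_Icc]
    constructor
    · rintro ⟨h3, h4, h5, h6⟩
      refine ⟨p - b, ⟨⟨by omega, by omega⟩, h6, ?_⟩, ?_⟩
      · rw [sub_add_cancel, Int.toNat_natCast]; exact h3
      · rw [sub_add_cancel, Int.toNat_natCast]
    · rintro ⟨x, ⟨⟨h3, h4⟩, h5, h6⟩, rfl⟩
      have h7 := h6.pos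
      have h8 : (((x + b).toNat : ℕ) : ℤ) = x + b := Int.toNat_of_nonneg (by omega)
      refine ⟨h6, by omega, by omega, ?_⟩
      rw [h8, add_sub_cancel_right]; exact h5
  rw [h2, Set.ncard_coe_finset, card_image_of_injOn]
  intro x hx y hy hxy
  rw [mem_coe, mem_filter, mem_Icc] at hx hy
  have h7 := hx.2.2.pos
  have h8 := hy.2.2.pos
  simp only at hxy
  omega

lemma QS_eq (P : ℤ → Prop) (n : ℕ) : QS P n n =
    ({p : ℕ | p.Prime ∧ p < n ∧ P (n - p)}.ncard : ℝ) := by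
  classical
  have h1 : QS P n n = (((Icc (1 : ℤ) n).filter (fun x => P x ∧ ((n : ℤ) - x).toNat.Prime)).card : ℝ) := by
    unfold QS
    rw [card_filter]
    push_cast
    apply sum_congr rfl
    intro x _
    rw [ind_pv]
  rw [h1]
  have h2 : {p : ℕ | p.Prime ∧ p < n ∧ P (n - p)} =
      (((Icc (1 : ℤ) n).filter (fun x => P x ∧ ((n : ℤ) - x).toNat.Prime)).image
        (fun x => ((n : ℤ) - x).toNat) : Finset ℕ) := by
    ext p
    simp only [Set.mem_ofPred_eq, coe_image, coe_filter, Set.mem_image, mem_Icc]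
    constructor
    · rintro ⟨h3, h4, h6⟩
      refine ⟨n - p, ⟨⟨by omega, by omega⟩, h6, ?_⟩, ?_⟩
      · rw [sub_sub_cancel, Int.toNat_natCast]; exact h3
      · rw [sub_sub_cancel, Int.toNat_natCast]
    · rintro ⟨x, ⟨⟨h3, h4⟩, h5, h6⟩, rfl⟩
      have h7 := h6.pos
      have h8 : ((((n : ℤ) - x).toNat : ℕ) : ℤ) = n - x := Int.toNat_of_nonneg (by omega)
      refine ⟨h6, by omega, ?_⟩
      rw [h8, sub_sub_cancel]; exact h5
  rw [h2, Set.ncard_coe_finset, card_image_of_injOn]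
  intro x hx y hy hxy
  rw [mem_coe, mem_filter, mem_Icc] at hx hy
  have h7 := hx.2.2.pos
  have h8 := hy.2.2.pos
  simp only at hxy
  omega

lemma TT3_eq (P : ℤ → Prop) (n : ℕ) : TT3 P n =
    ({z : ℕ × ℕ | z.1.Prime ∧ z.2.Prime ∧ z.1 + z.2 < n ∧ P (n - z.1 - z.2)}.ncard : ℝ) := by
  classical
  set F : Finset (ℕ × ℕ) := (range n ×ˢ range n).filter
    (fun z => z.1.Prime ∧ z.2.Prime ∧ z.1 + z.2 < n ∧ P (n - z.1 - z.2)) with hF
  have h1 : {z : ℕ × ℕ | z.1.Prime ∧ z.2.Prime ∧ z.1 + z.2 < n ∧ P (n - z.1 - z.2)} = (F : Set (ℕ × ℕ)) := by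
    ext z
    rw [hF, mem_coe, mem_filter, mem_product, mem_range, mem_range]
    simp only [Set.mem_ofPred_eq]
    constructor
    · rintro ⟨h2, h3, h4, h5⟩
      exact ⟨⟨by omega, by omega⟩, h2, h3, h4, h5⟩
    · rintro ⟨_, h⟩; exact h
  rw [h1, Set.ncard_coe_finset, hF, card_filter, sum_product]
  push_cast
  unfold TT3
  -- the first prime is `n - m`
  have h2 : ∑ m ∈ Icc 1 n, pv ((n : ℤ) - m) * QS P m m =
      ∑ p ∈ range n, pv p * QS P ((n - p : ℕ) : ℤ) (n - p) := by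
    apply sum_bij (fun (m : ℕ) _ => n - m)
    · intro m hm
      rw [mem_Icc] at hm
      rw [mem_range]; omega
    · intro x hx y hy h
      rw [mem_Icc] at hx hy
      omega
    · intro p hp
      rw [mem_range] at hp
      exact ⟨n - p, by rw [mem_Icc]; omega, by omega⟩
    · intro m hm
      rw [mem_Icc] at hm
      rw [show n - (n - m) = m by omega, show ((n - m : ℕ) : ℤ) = (n : ℤ) - m by omega]
  rw [h2]
  apply sum_congr rfl
  intro p hp
  rw [mem_range] at hp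
  have h3 : QS P ((n - p : ℕ) : ℤ) (n - p) = ∑ q ∈ range n,
      if q.Prime ∧ p + q < n ∧ P ((n : ℤ) - p - q) then (1 : ℝ) else 0 := by
    rw [QS_eq, ← sum_filter, sum_const, nsmul_eq_mul, mul_one]
    have h4 : {q : ℕ | q.Prime ∧ q < n - p ∧ P (((n - p : ℕ) : ℤ) - q)} =
        (((range n).filter (fun q : ℕ => q.Prime ∧ p + q < n ∧ P ((n : ℤ) - p - q)) : Finset ℕ) : Set ℕ) := by
      ext q
      rw [mem_coe, mem_filter, mem_range]
      simp only [Set.mem_ofPred_eq]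
      rw [show ((n - p : ℕ) : ℤ) = (n : ℤ) - p by omega]
      constructor
      · rintro ⟨h5, h6, h7⟩
        exact ⟨by omega, h5, by omega, h7⟩
      · rintro ⟨h4, h5, h6, h7⟩
        exact ⟨h5, by omega, h7⟩
    rw [h4, Set.ncard_coe_finset]
  rw [h3]
  unfold pv
  rw [Int.toNat_natCast]
  split_ifs with h5
  · rw [one_mul]
    apply sum_congr rfl
    intro q _
    by_cases h6 : q.Prime ∧ p + q < n ∧ P ((n : ℤ) - p - q)
    · rw [if_pos h6, if_pos ⟨h5, h6.1, h6.2.1, h6.2.2⟩]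
    · rw [if_neg h6, if_neg (fun h => h6 ⟨h.2.1, h.2.2.1, h.2.2.2⟩)]
  · rw [zero_mul]
    symm
    apply sum_eq_zero
    intro q _
    rw [if_neg (fun h => h5 h.1)]

open Classical in
lemma QD_filter (P : ℤ → Prop) (b : ℤ) (N : ℕ) :
    QD P b N = ∑ y ∈ (Icc (1 : ℤ) N).filter P, pv (y + b) := by
  unfold QD
  rw [sum_filter]
  apply sum_congr rfl
  intro x _
  unfold ind
  split_ifs
  · rw [one_mul]
  · rw [zero_mul]

end Pool.Agent.TH204.CP
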